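import Pool.Agent.W801.OL.Stm
import Pool.Agent.H160R2.ML.T_FA

/-!
# t_FA: the exponents
-/

set_option autoImplicit false

namespace Pool.Agent.W801.OL
open Pool.Agent.H160R2.ML (RR)

theorem t_FA : Pool.Agent.H160R2.ML.S_AN → Pool.Agent.H160R2.ML.S_BE →
    Pool.Agent.H160R2.ML.S_PH → S_FA := by
  intro hAN hBE hPH p r
  have hpi := Real.pi_pos
  obtain ⟨c, C, hc, hC, h⟩ := hAN (p + r)
  obtain ⟨c', C', hc', hC', h'⟩ := hBE
  have pr : ∀ N : ℕ, 0 < RR N 0 (Real.pi / 3) := fun N =>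
    (hPH N 0 _ (by linarith) (by linarith)).1
  set K' : ℝ := |Real.log c'| + |Real.log C'| with hK'
  have hsd : ∀ N : ℕ, |Real.log (RR (N + 2) 0 (Real.pi / 3)) + Real.log (RR N 0 (Real.pi / 3)) -
      2 * Real.log (RR (N + 1) 0 (Real.pi / 3))| ≤ K' := by
    intro N
    have p0 := pr N
    have p1 := pr (N + 1)
    have p2 := pr (N + 2)
    obtain ⟨h1, h2⟩ := h' N
    have e1 := Real.log_le_log (by positivity) h1
    have e2 := Real.log_le_log (by positivity) h2
    rw [Real.log_mul hc'.ne' (by positivity), Real.log_pow, Real.log_mul p2.ne' p0.ne'] at e1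
    rw [Real.log_mul hC'.ne' (by positivity), Real.log_pow, Real.log_mul p2.ne' p0.ne'] at e2
    push_cast at e1 e2
    have h5 := neg_abs_le (Real.log c')
    have h6 := le_abs_self (Real.log C')
    have h7 := abs_nonneg (Real.log c')
    have h8 := abs_nonneg (Real.log C')
    rw [abs_le, hK']
    constructor <;> linarith
  set α : ℝ := -((((p : ℝ) + r) ^ 2 - 1) / 12) with hα
  set K : ℝ := |Real.log c| + |Real.log C| with hK
  set L : ℝ := (K + r * (p * K') + |Real.log (Real.sqrt 3)|) / 2 with hL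
  refine ⟨Real.exp (-L), Real.exp L, Real.exp_pos _, Real.exp_pos _, ?_⟩
  intro M P hM hP0 hP
  have hM' : (0 : ℝ) < M := by exact_mod_cast hM
  have px := (hPH M (p + r) 0 le_rfl hpi).1
  have h3 : (0 : ℝ) < Real.sqrt 3 := Real.sqrt_pos.2 (by norm_num)
  have hPpos : 0 < P := by
    rcases hP0.lt_or_eq with h4 | h4
    · exact h4
    · exfalso
      rw [← h4] at hP
      have h5 : 0 < Real.sqrt 3 * RR M (p + r) 0 ^ 2 := mul_pos h3 (pow_pos px 2)
      rw [← hP] at h5
      simp at h5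
  have key := Pool.Agent.H160R2.ML.TFA.ofLog (α := α) (K := L) hPpos one_pos hM' ?_
  · rw [mul_one, mul_one] at key
    exact key
  obtain ⟨h1, h2⟩ := h M hM
  have e1 := Pool.Agent.H160R2.ML.TFA.toLog (pow_pos px 2)
    (mul_pos (pr M) (pr (M + (p + r)))) hM' hc hC h1 h2
  rw [Real.log_pow, Real.log_mul (pr _).ne' (pr _).ne'] at e1
  have e2 := Pool.Agent.H160R2.ML.TFA.sd2 (a := fun N => Real.log (RR N 0 (Real.pi / 3))) hsd M p r
  have i1 : M + p + r = M + (p + r) := by ring
  rw [i1] at e2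
  have e3 := congrArg Real.log hP
  rw [Real.log_mul (pow_pos hPpos 2).ne' (mul_pos (pr _) (pr _)).ne',
    Real.log_mul (pr _).ne' (pr _).ne', Real.log_mul h3.ne' (pow_pos px 2).ne', Real.log_pow,
    Real.log_pow, Nat.add_comm p M, Nat.add_comm r M] at e3
  push_cast at e1 e3
  have e4 : (1 - ((p : ℝ) + r) ^ 2) / 6 = 2 * α := by rw [hα]; ring
  rw [e4] at e1
  have h5 := neg_abs_le (Real.log (Real.sqrt 3))
  have h6 := le_abs_self (Real.log (Real.sqrt 3))
  rw [Real.log_one, sub_zero, hL]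
  rw [abs_le] at e1 e2 ⊢
  constructor <;> linarith

end Pool.Agent.W801.OL
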