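import Pool.Agent.W801.OL.Stm
import Pool.Agent.H160R2.ML.T_legx
import Pool.Agent.H160R2.ML.T_thr
import Pool.Agent.H160R2.ML.T_mvR
import Pool.Agent.H160R2.ML.T_mvL
import Pool.Agent.H160R2.ML.T_deg
import Pool.Agent.H160R2.ML.T_swap
import Pool.Agent.H160R2.ML.T_bs
import Pool.Agent.W808.HB.T_comp
import Pool.Agent.W808.HB.T_bs

/-! Properties of the partition function without parity. -/

set_option autoImplicit false

namespace Pool.Agent.W801.OL
open Pool.Agent.H863R2.Cyl
open Pool.Agent.H863R2.Cyl.PairAux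
open Pool.Agent.H988R2.Perc (Word PD)
open Pool.Agent.H160R2.ML (Good ee Cn Lg pt GG prE pfq Gn T lg Dl RR)
open Pool.Agent.W808.HB (bwm kap)

theorem prE_act0 {l : ℕ} {e : ℕ → ℕ → Word → Word → ℂ} (he : LSp l e) {p r N N' i : ℕ}
    (hl : p + r = l) (hN : N' + p = N + 2 + r) (hi : i + 2 ≤ p) (hp : p ≤ N + 2)
    {v' v : VW} (hv' : v' ∈ VN N') (hv : v ∈ VN (N + 2)) :
    prE e p r v' (lin (act i) v) = 0 := by
  have h := bilin_ext (A := (prE e p r).compl₂ (lin (act i))) (B := 0) (N' := N') (N := N + 2)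
    (fun w' w h1 h2 h3 h4 => by
      have h5 : i + 2 ≤ w.length := by omega
      have h6 : (cap i w).length = N := by
        have := length_cap h5
        omega
      rw [LinearMap.compl₂_apply, lin_bs, Pool.Agent.H160R2.ML.Tlegx.prE_bs, act_eq h5]
      rw [he.zero p r i w' (cap i w) hl h2 (ok_cap h4 h5)
        (by rw [h6]; omega) hi (by rw [h6]; exact hp)]
      rfl) hv' hv
  exact h

theorem t_legx : S_legx := by
  intro q l e Ψ Ψ' D u v B z x y hl
  have h1 := D.h.exch u (v ++ z) x y
  have e1 : (u ++ y :: x :: v) ++ z = u ++ y :: x :: (v ++ z) := by simp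
  have e2 : (u ++ x :: y :: v) ++ z = u ++ x :: y :: (v ++ z) := by simp
  have l1 : (u ++ y :: x :: v).length = u.length + v.length + 2 := by
    simp only [List.length_append, List.length_cons]; omega
  have l2 : (u ++ x :: y :: v).length = u.length + v.length + 2 := by
    simp only [List.length_append, List.length_cons]; omega
  unfold GG
  rw [l1, l2, e1, e2]
  have h2 := congrArg (prE e (u.length + v.length + 2) B.length (Ψ' (B ++ z))) h1
  rw [map_add, map_smul, map_smul, map_smul] at h2
  have hm := D.h.mem (u ++ x :: y :: (v ++ z))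
  have hm' := D.h'.mem (B ++ z)
  have l3 : (u ++ x :: y :: (v ++ z)).length = (u.length + v.length + z.length) + 2 := by
    simp only [List.length_append, List.length_cons]; omega
  rw [l3] at hm
  rw [List.length_append] at hm'
  rw [prE_act0 D.he hl (by omega) (by omega) (by omega) hm' hm] at h2
  rw [smul_zero, add_zero, smul_eq_mul, smul_eq_mul] at h2
  exact h2

theorem word_act {l : ℕ} {e : ℕ → ℕ → Word → Word → ℂ} (he : LSp l e) {p r N s : ℕ}
    (hpr : p + r = l) (hs : s + 2 ≤ N) {w' w : Word}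
    (h1 : w'.length = r + N) (h2 : Ok w') (h3 : w.length = p + N) (h4 : Ok w) :
    e p r (act (r + s) w') w = e p r w' (act (p + s) w) := by
  have a1 : (p + s) + 2 ≤ w.length := by omega
  have a2 : (r + s) + 2 ≤ w'.length := by omega
  have l1 := length_cap a1
  have l2 := length_cap a2
  have o1 := ok_cap h4 a1
  have o2 := ok_cap h2 a2
  have r1 : e p r w' (act (p + s) w) = e p r (cap (r + s) w') (cap (p + s) w) := by
    rw [act_eq a1, he.insR p r (p + s) w' (cap (p + s) w) hpr h2 o1 (by omega) (by omega)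
      (by omega)]
    congr 2
    omega
  have r2 : e p r (act (r + s) w') w = e p r (cap (r + s) w') (cap (p + s) w) := by
    rw [he.symm p r (act (r + s) w') w hpr (by rw [length_act]; omega) (by omega), act_eq a2,
      he.insR r p (r + s) w (cap (r + s) w') (by omega) h4 o2 (by omega) (by omega)
      (by omega), he.symm p r (cap (r + s) w') (cap (p + s) w) hpr (by omega) (by omega)]
    congr 2
    omega
  rw [r1, r2]

theorem prE_act {l : ℕ} {e : ℕ → ℕ → Word → Word → ℂ} (he : LSp l e) {p r N s : ℕ}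
    (hpr : p + r = l) (hs : s + 2 ≤ N) {v' v : VW}
    (hv' : v' ∈ VN (r + N)) (hv : v ∈ VN (p + N)) :
    prE e p r (lin (act (r + s)) v') v = prE e p r v' (lin (act (p + s)) v) := by
  have h := bilin_ext (A := (prE e p r).comp (lin (act (r + s))))
    (B := (prE e p r).compl₂ (lin (act (p + s)))) (N' := r + N) (N := p + N)
    (fun w' w h1 h2 h3 h4 => by
      rw [LinearMap.compl₂_apply, LinearMap.comp_apply, lin_bs, lin_bs,
        Pool.Agent.H160R2.ML.Tthr.prE_bs, Pool.Agent.H160R2.ML.Tthr.prE_bs,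
        word_act he hpr hs h1 h2 h3 h4]) hv' hv
  exact h

theorem t_thr : S_thr := by
  intro q l e Ψ Ψ' D A B z z' hp hAB hz
  obtain ⟨hq, hl, he, hΨ, hΨ'⟩ := D
  have hq3 : q ^ 3 = 1 := by linear_combination (q - 1) * hq
  -- adjacent swaps
  have hswap : ∀ (u v : List ℂ) (x y : ℂ), x ^ 3 ≠ y ^ 3 →
      GG e Ψ' Ψ A B (u ++ y :: x :: v) = GG e Ψ' Ψ A B (u ++ x :: y :: v) := by
    intro u v x y hxy
    unfold GG
    have e1 := hΨ.exch (A ++ u) v x y
    have e2 := hΨ'.exch (B ++ u) v x y
    rw [List.append_assoc, List.append_assoc] at e1 e2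
    have m1 := hΨ.mem (A ++ (u ++ x :: y :: v))
    have m2 := hΨ'.mem (B ++ (u ++ x :: y :: v))
    rw [List.length_append] at m1 m2
    rw [List.length_append] at e1 e2
    set N := (u ++ x :: y :: v).length with hN
    have hN2 : u.length + 2 ≤ N := by rw [hN]; simp
    set X := Ψ (A ++ (u ++ x :: y :: v))
    set X' := Ψ' (B ++ (u ++ x :: y :: v))
    set Y := Ψ (A ++ (u ++ y :: x :: v))
    set Y' := Ψ' (B ++ (u ++ y :: x :: v))
    set i := u.length
    set p := A.length
    set r := B.length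
    have h1 : prE e p r (lin (act (r + i)) X') X = prE e p r X' (lin (act (p + i)) X) :=
      prE_act he hAB hN2 m2 m1
    have m3 : lin (act (p + i)) X ∈ VN (p + N) := GPropAux.lin_mem m1 fun w hw hok =>
      ⟨(length_act _ w).trans hw, ok_act _ hok⟩
    have h2 : prE e p r (lin (act (r + i)) X') (lin (act (p + i)) X) =
        prE e p r X' (lin (act (p + i)) X) := by
      rw [prE_act he hAB hN2 m2 m3, GPropAux.lin_lin]
      congr 1
      refine GPropAux.lin_apply_congr m1 fun w hw _ => ?_
      exact act_of_arcAt (arcAt_act _ (by omega))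
    have h3 : prE e p r ((q ^ 2 * y - (q ^ 2) ^ 2 * x) • Y') ((q * y - q ^ 2 * x) • Y) =
        prE e p r ((q ^ 2 * x - (q ^ 2) ^ 2 * y) • X' + (x - y) • lin (act (r + i)) X')
          ((q * x - q ^ 2 * y) • X + (x - y) • lin (act (p + i)) X) := by
      rw [e1, e2]
    simp only [map_add, map_smul, LinearMap.add_apply, LinearMap.smul_apply, smul_eq_mul] at h3
    rw [h1, h2] at h3
    have c1 : (q ^ 2 * y - (q ^ 2) ^ 2 * x) * (q * y - q ^ 2 * x) = x ^ 2 + x * y + y ^ 2 := by
      linear_combination (y ^ 2 + q ^ 3 * x ^ 2 + x ^ 2 - q * x * y - q ^ 2 * x * y) * hq3 - x * y * hq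
    have c2 : (q ^ 2 * x - (q ^ 2) ^ 2 * y) * (q * x - q ^ 2 * y) = x ^ 2 + x * y + y ^ 2 := by
      linear_combination (x ^ 2 + q ^ 3 * y ^ 2 + y ^ 2 - q * x * y - q ^ 2 * x * y) * hq3 - x * y * hq
    have c3 : (q ^ 2 * x - (q ^ 2) ^ 2 * y) + (q * x - q ^ 2 * y) + (x - y) = 0 := by
      linear_combination (x - y) * hq - q * y * hq3
    have hne : x ^ 2 + x * y + y ^ 2 ≠ 0 := by
      intro h0
      apply hxy
      linear_combination (x - y) * h0
    apply mul_left_cancel₀ hne
    linear_combination h3 - prE e p r Y' Y * c1 + prE e p r X' X * c2 +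
      (x - y) * prE e p r X' (lin (act (p + i)) X) * c3
  have key : ∀ u : List ℂ, ((u ++ z).map (fun x => x ^ 3)).Nodup →
      GG e Ψ' Ψ A B (u ++ z) = GG e Ψ' Ψ A B (u ++ z') := by
    clear hz
    induction hp with
    | nil => intro u _; rfl
    | cons x _ ih =>
      intro u hu
      have := ih (u ++ [x]) (by simpa using hu)
      simpa using this
    | swap x y l =>
      intro u hu
      refine hswap u l x y ?_
      intro h0
      rw [List.map_append, List.nodup_append] at hu
      have h1 := hu.2.1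
      rw [List.map_cons, List.map_cons, List.nodup_cons] at h1
      apply h1.1
      rw [← h0]
      exact List.mem_cons_self
    | trans h1 h2 ih1 ih2 =>
      rename_i l1 l2 l3
      intro u hu
      have hperm : (u ++ l1).Perm (u ++ l2) := h1.append_left u
      rw [ih1 u hu, ih2 u ((hperm.map _).nodup_iff.1 hu)]
  have := key [] (by simpa using hz.2)
  simpa using this

theorem t_mvR : S_mvR := by
  intro q l e Ψ Ψ' hD A B z x hl
  have h1 : (A ++ [x]) ++ (q * x) :: z = A ++ x :: (q * x) :: z := by simp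
  have h2 : (B ++ [q * x]) ++ z = B ++ (q * x) :: z := by simp
  unfold GG
  rw [h1, h2, hD.h.recu A z x, map_smul, smul_eq_mul]
  congr 1
  rw [List.length_append, List.length_append, List.length_singleton, List.length_singleton]
  apply Pool.Agent.H160R2.ML.TmvR.prE_lin
  intro w' hw' w hw
  obtain ⟨h3, h4⟩ := Pool.Agent.H160R2.ML.TmvR.mem_VN (hD.h'.mem _) hw'
  obtain ⟨h5, h6⟩ := Pool.Agent.H160R2.ML.TmvR.mem_VN (hD.h.mem _) hw
  rw [List.length_append] at h5
  simp only [List.length_append, List.length_cons] at h3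
  have h7 := hD.he.moveR (A.length + 1) B.length w' w hl h4 h6
    (by omega) (by omega) (by omega)
  rwa [Nat.add_sub_cancel] at h7

theorem t_mvL : S_mvL := by
  intro q l e Ψ Ψ' hD A B z y hl
  have h1 : Ψ ((q * y) :: A ++ (z ++ [y])) = fac q y (A ++ z) • lin seam (Ψ (A ++ z)) := by
    have e1 : (q * y) :: A ++ (z ++ [y]) = (q * y) :: (A ++ z ++ [y]) := by simp
    have e2 : A ++ z ++ [y] ++ [q * y] = (A ++ z) ++ y :: (q * y) :: [] := by simp
    rw [e1, hD.h.rot, e2, hD.h.recu (A ++ z) [] y, List.append_nil, map_smul,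
      BLAux.rotr_lin_lins (hD.h.mem (A ++ z))]
  have h2 : lin rotr (Ψ' (B ++ (z ++ [y]))) = Ψ' (y :: B ++ z) := by
    have e1 : B ++ (z ++ [y]) = (B ++ z) ++ [y] := by simp
    have e2 : y :: B ++ z = y :: (B ++ z) := by simp
    rw [e1, e2, hD.h'.rot]
  unfold GG
  rw [h1, map_smul, smul_eq_mul, ← h2]
  congr 1
  have hx := hD.h'.mem (B ++ (z ++ [y]))
  have hv := hD.h.mem (A ++ z)
  refine Pool.Agent.H160R2.ML.TmvL.prE_move e _ _ _ _ seam rotr hx hv
    fun w' u hw' hok' hu hok => ?_
  have hlen : w'.length = B.length + (z.length + 1) := by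
    rw [hw']
    simp
  have hulen : u.length = A.length + z.length := by
    rw [hu]
    simp
  have h3 := hD.he.moveL (A.length + 1) B.length w' u (by omega) hok' hok
    (by omega) (by omega) (by omega)
  rw [List.length_cons, List.length_cons, h3, Nat.add_sub_cancel]

theorem t_deg : S_deg := by
  intro q l e Ψ Ψ' hD A B z _
  have hPD : ∀ w : Word, ∃ P : Polynomial ℂ, P.natDegree ≤ A.length + z.length ∧
      ∀ x, Ψ (A ++ x :: z) w = P.eval x := by
    intro w
    have h := hD.h.deg (A.length + z.length + 1) w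
    obtain ⟨P, hP, hPe⟩ := Pool.Agent.H988R2.Perc.PD.univ h A z rfl
    refine ⟨P, ?_, hPe⟩
    simpa using hP
  choose P hPd hPe using hPD
  refine ⟨∑ w ∈ BLAux.SN (A.length + z.length + 1),
    Polynomial.C (prE e (A.length + 1) B.length (Ψ' (B ++ z)) (bs w)) * P w, ?_, ?_⟩
  · refine Polynomial.natDegree_sum_le_of_forall_le _ _ fun w _ => ?_
    exact (Polynomial.natDegree_C_mul_le _ _).trans (hPd w)
  · intro x
    have hmem := hD.h.mem (A ++ x :: z)
    have hlen : (A ++ x :: z).length = A.length + z.length + 1 := by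
      simp only [List.length_append, List.length_cons]; omega
    rw [hlen] at hmem
    have hex := BLAux.expand hmem
    have hA : A ++ [x] ++ z = A ++ x :: z := by simp
    have hl1 : (A ++ [x]).length = A.length + 1 := by simp
    unfold GG
    rw [hA, hl1, hex, map_sum, Polynomial.eval_finsetSum]
    refine Finset.sum_congr rfl fun w _ => ?_
    rw [map_smul, Polynomial.eval_mul, Polynomial.eval_C, ← hPe w x, smul_eq_mul, mul_comm]

theorem t_swap : S_swap := by
  intro q l e Ψ Ψ' hD A B z hl
  unfold GG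
  rw [Pool.Agent.H160R2.ML.Tswap.prE_apply, Pool.Agent.H160R2.ML.Tswap.prE_apply,
    Finset.sum_comm]
  refine Finset.sum_congr rfl fun w hw => Finset.sum_congr rfl fun w' hw' => ?_
  have h1 : w.length = A.length + z.length := by
    rw [Pool.Agent.H160R2.ML.Tswap.len_of_mem (hD.h.mem (A ++ z)) hw, List.length_append]
  have h2 : w'.length = B.length + z.length := by
    rw [Pool.Agent.H160R2.ML.Tswap.len_of_mem (hD.h'.mem (B ++ z)) hw', List.length_append]
  rw [hD.he.symm A.length B.length w' w hl (by omega) (by omega)]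
  ring

theorem t_bs : S_bs := by
  intro q l e Ψ Ψ' hD A B hAB hGA hGB
  have hq := hD.hq
  have hq2 : (q ^ 2) ^ 2 + q ^ 2 + 1 = 0 := by
    have h3 : q ^ 3 = 1 := by linear_combination (q - 1) * hq
    calc (q ^ 2) ^ 2 + q ^ 2 + 1 = q ^ 3 * q + q ^ 2 + 1 := by ring
      _ = q ^ 2 + q + 1 := by rw [h3]; ring
      _ = 0 := hq
  have hAs : ∀ w ∈ (Ψ A).support, w.length = A.length ∧ Ok w := fun w hw =>
    (Finsupp.mem_supported ℂ _).mp (hD.h.mem A) hw
  have hBs : ∀ w ∈ (Ψ' B).support, w.length = B.length ∧ Ok w := fun w hw =>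
    (Finsupp.mem_supported ℂ _).mp (hD.h'.mem B) hw
  have hGG : GG e Ψ' Ψ A B [] = Ψ' B (bwm B.length) * (Ψ A (bwm A.length)) := by
    unfold GG
    rw [List.append_nil, List.append_nil, Pool.Agent.H160R2.ML.Tbs.pr_single e A.length B.length
      (Ψ' B) (Ψ A) (bwm B.length) (bwm A.length), hD.he.base A.length B.length hAB, mul_one]
    intro w' hw' w hw hne
    obtain ⟨l1, o1⟩ := hAs w hw
    obtain ⟨l2, o2⟩ := hBs w' hw'
    rcases hne with hne | hne
    · obtain ⟨i, u, rfl, hu, hul, hi⟩ := Pool.Agent.W808.HB.Tbs.exists_arc B.length w' l2 o2 hne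
      rw [hD.he.symm A.length B.length _ _ hAB (by omega) (by omega)]
      exact hD.he.zero B.length A.length i w u (by omega) o1 hu (by omega) hi (by omega)
    · obtain ⟨i, u, rfl, hu, hul, hi⟩ := Pool.Agent.W808.HB.Tbs.exists_arc A.length w l1 o1 hne
      exact hD.he.zero A.length B.length i w' u hAB o2 hu (by omega) hi (by omega)
  have h1 := Pool.Agent.W808.HB.t_comp q Ψ hq hD.h A hGA
  have h2 := Pool.Agent.W808.HB.t_comp (q ^ 2) Ψ' hq2 hD.h' B hGB
  rw [hGG, ← h1, ← h2]
  ring

end Pool.Agent.W801.OL
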