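import Pool.Agent.W801.OL.Stm
import Pool.Agent.H160R2.ML.T_HV

/-!
# Task OL-HV: the homogeneous value with an odd number of legs
-/

set_option autoImplicit false

namespace Pool.Agent.W801.OL
open Pool.Agent.H863R2.Cyl
open Pool.Agent.H988R2.Perc (Word PD)
open Pool.Agent.H160R2.ML (GG prE pfq Gn T Dl RR)
open Filter Topology

namespace THV
open Pool.Agent.H160R2.ML.THV (prE_eq cont_pd vd_eq norms)

theorem cont_GG {q : ℂ} {e : ℕ → ℕ → Word → Word → ℂ} {Ψ Ψ' : List ℂ → VW}
    (h : Fam q Ψ) (h' : Fam (q ^ 2) Ψ') (A B : List ℂ) (N : ℕ) :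
    Continuous (fun z : Fin N → ℂ => GG e Ψ' Ψ A B (List.ofFn z)) := by
  have h1 : (fun z : Fin N → ℂ => GG e Ψ' Ψ A B (List.ofFn z)) = fun z =>
      ∑ w' ∈ GPropAux.WS (B.length + N), ∑ w ∈ GPropAux.WS (A.length + N),
        e A.length B.length w' w * (Ψ' (B ++ List.ofFn z) w' * Ψ (A ++ List.ofFn z) w) := by
    funext z
    have m1 := h'.mem (B ++ List.ofFn z)
    have m2 := h.mem (A ++ List.ofFn z)
    rw [List.length_append, List.length_ofFn] at m1 m2
    exact prE_eq e A.length B.length m1 m2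
  rw [h1]
  refine continuous_finsetSum _ fun w' _ => continuous_finsetSum _ fun w _ => ?_
  exact continuous_const.mul ((cont_pd (h'.deg _ w') B N rfl).mul
    (cont_pd (h.deg _ w) A N rfl))

theorem pfq_norm1 {q : ℂ} (hq : q ^ 2 + q + 1 = 0) (k a : ℕ) (ha : 2 * a = k * (k - 1)) :
    ‖pfq q (List.replicate k 1)‖ = Real.sqrt 3 ^ a := by
  induction k generalizing a with
  | zero =>
    obtain rfl : a = 0 := by simpa using ha
    simp [pfq]
  | succ k ih =>
    have h1 : pfq q (List.replicate (k + 1) 1) =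
        (q - q ^ 2) ^ k * pfq q (List.replicate k 1) := by
      rw [List.replicate_succ]
      simp [pfq]
    obtain ⟨b, hb⟩ : 2 ∣ k * (k - 1) := (Nat.even_mul_pred_self k).two_dvd
    have e1 : a = k + b := by
      have e2 : (k + 1) * (k + 1 - 1) = k + k + k * (k - 1) := by
        rcases k with _ | k
        · simp
        · simp only [Nat.add_sub_cancel]
          ring
      rw [e2] at ha
      omega
    rw [h1, norm_mul, norm_pow, (norms hq).2.2.2, ih b hb.symm, e1, pow_add]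

theorem kap_norm {κ : ℂ} {m : ℕ} (h : ‖κ‖ ^ 4 * 3 ^ (2 * m) = 1) :
    ‖κ‖ * Real.sqrt 3 ^ m = 1 := Pool.Agent.H160R2.ML.THV.kap_norm h

theorem ff (n : ℕ) : 4 * ((n - 1) ^ 2 / 4) + 2 * n = n * n + n % 2 := by
  rcases Nat.even_or_odd' n with ⟨t, rfl | rfl⟩
  · rcases t with _ | t
    · simp
    · have e1 : (2 * (t + 1) - 1) ^ 2 = 1 + 4 * (t * t + t) := by
        have : 2 * (t + 1) - 1 = 2 * t + 1 := by omega
        rw [this]
        ring
      have e2 : (1 + 4 * (t * t + t)) / 4 = t * t + t := by omega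
      rw [e1, e2]
      have e3 : 2 * (t + 1) * (2 * (t + 1)) = 4 * (t * t) + 8 * t + 4 := by ring
      rw [e3]
      omega
  · have e1 : (2 * t + 1 - 1) ^ 2 = 4 * (t * t) := by
      rw [Nat.add_sub_cancel]
      ring
    have e2 : 4 * (t * t) / 4 = t * t := by omega
    rw [e1, e2]
    have e3 : (2 * t + 1) * (2 * t + 1) = 4 * (t * t) + 4 * t + 1 := by ring
    rw [e3]
    omega

theorem sq_pred (k : ℕ) : k * (k - 1) + k = k * k := by
  rcases k with _ | k
  · simp
  · simp only [Nat.add_sub_cancel]; ring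

theorem expo (p r M m a b c : ℕ) (h : p + r = 2 * m + 1) (ha : 2 * a = p * (p - 1))
    (hb : 2 * b = r * (r - 1)) (hc : 2 * c = M * (M - 1)) :
    a + b + 2 * c + (p + r) * M =
      2 * ((p + M - 1) ^ 2 / 4 + (r + M - 1) ^ 2 / 4) + m + M := by
  have h1 := ff (p + M)
  have h2 := ff (r + M)
  have h3 := sq_pred p
  have h4 := sq_pred r
  have h5 := sq_pred M
  have e1 : (p + M) * (p + M) = p * p + 2 * (p * M) + M * M := by ring
  have e2 : (r + M) * (r + M) = r * r + 2 * (r * M) + M * M := by ring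
  have e3 : (p + r) * M = p * M + r * M := by ring
  rw [e1] at h1
  rw [e2] at h2
  rw [e3]
  generalize (p + M - 1) ^ 2 / 4 = E1 at *
  generalize (r + M - 1) ^ 2 / 4 = E2 at *
  generalize p * (p - 1) = x1 at *
  generalize r * (r - 1) = x2 at *
  generalize M * (M - 1) = x3 at *
  generalize p * p = y1 at *
  generalize r * r = y2 at *
  generalize M * M = y3 at *
  generalize p * M = u1 at *
  generalize r * M = u2 at *
  omega

end THV

open THV Pool.Agent.H160R2.ML.THV in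
theorem t_HV : S_TB → Pool.Agent.H160R2.ML.S_HL → S_HV := by
  intro hTB hHL q p r N e Ψ Ψ' hD
  classical
  have hq := hD.hq
  have hq3 : q ^ 3 = 1 := by linear_combination (q - 1) * hq
  obtain ⟨m, hm⟩ := hD.hl
  obtain ⟨κ, hκ, hform⟩ := hTB q (p + r) e Ψ Ψ' hD p r N rfl
  set l : Filter ℝ := 𝓝[>] (0 : ℝ) with hl
  set x : ℝ → ℕ → ℂ := fun t k => ((1 + t * k : ℝ) : ℂ) with hx
  have hcont : ∀ k : ℕ, Tendsto (fun t : ℝ => x t k) l (𝓝 1) := by
    intro k
    have h1 : Continuous (fun t : ℝ => x t k) := by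
      simp only [hx]
      fun_prop
    have h2 := h1.tendsto 0
    have h3 : x 0 k = 1 := by simp [hx]
    rw [h3] at h2
    exact h2.mono_left nhdsWithin_le_nhds
  have hpos : ∀ᶠ t in l, (0 : ℝ) < t := self_mem_nhdsWithin
  have hinj : ∀ᶠ t in l, Function.Injective (x t) := by
    filter_upwards [hpos] with t ht a b hab
    have h1 : (1 + t * a : ℝ) = 1 + t * b := Complex.ofReal_injective hab
    have h2 : t * (a : ℝ) = t * b := by linarith
    have h3 := mul_left_cancel₀ ht.ne' h2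
    exact_mod_cast h3
  have hmain := hHL q ((-q) ^ (p + r)) hq N (p + r) l x hcont hinj
  set z : ℝ → Fin N → ℂ := fun t i => x t i with hz
  have hztend : Tendsto z l (𝓝 (fun _ => (1 : ℂ))) := by
    rw [tendsto_pi_nhds]
    intro i
    exact hcont i
  set A : List ℂ := List.replicate p 1 with hA
  set B : List ℂ := List.replicate r 1 with hB
  have hGt : Tendsto (fun t => GG e Ψ' Ψ A B (List.ofFn (z t))) l
      (𝓝 (GG e Ψ' Ψ A B (List.ofFn (fun _ : Fin N => (1 : ℂ))))) :=
    ((THV.cont_GG hD.h hD.h' A B N).tendsto _).comp hztend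
  have hq2 : (q ^ 2 * 1 - q * 1) ^ 2 = (-3 : ℂ) := by
    linear_combination (q ^ 2 - 3 * q + 3) * hq
  have hP : Tendsto (fun t => wd q (z t)) l (𝓝 ((-3) ^ (N * (N - 1)))) := by
    have h1 : Tendsto (fun t => ∏ i, ∏ j ∈ Finset.univ.filter (· ≠ i),
        (q ^ 2 * z t i - q * z t j) ^ 2) l
        (𝓝 (∏ i : Fin N, ∏ _j ∈ Finset.univ.filter (· ≠ i), (q ^ 2 * 1 - q * 1) ^ 2)) := by
      refine tendsto_finsetProd _ fun i _ => tendsto_finsetProd _ fun j _ => ?_
      exact (((hcont i).const_mul _).sub ((hcont j).const_mul _)).pow 2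
    rw [hq2] at h1
    have h2 : (∏ i : Fin N, ∏ _j ∈ Finset.univ.filter (· ≠ i), (-3 : ℂ)) =
        (-3) ^ (N * (N - 1)) := by
      have h3 : ∀ i : Fin N, (∏ _j ∈ Finset.univ.filter (· ≠ i), (-3 : ℂ)) = (-3) ^ (N - 1) := by
        intro i
        rw [Finset.prod_const, Finset.filter_ne', Finset.card_erase_of_mem (Finset.mem_univ i),
          Finset.card_univ, Fintype.card_fin]
      rw [Finset.prod_congr rfl fun i _ => h3 i, Finset.prod_const, Finset.card_univ,
        Fintype.card_fin, ← pow_mul, mul_comm]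
    rw [h2] at h1
    exact h1
  have hZ : Tendsto (fun t => ∏ i, z t i) l (𝓝 1) := by
    have h1 : Tendsto (fun t => ∏ i, z t i) l (𝓝 (∏ _i : Fin N, (1 : ℂ))) :=
      tendsto_finsetProd _ fun i _ => hcont i
    simpa using h1
  have hRHS := ((hP.mul hZ).mul hmain).const_mul (κ * pfq q A * pfq (q ^ 2) B)
  have heq : ∀ᶠ t in l, GG e Ψ' Ψ A B (List.ofFn (z t)) = κ * pfq q A * pfq (q ^ 2) B *
      (wd q (z t) * (∏ i, z t i) * (T q ((-q) ^ (p + r)) (List.replicate (p + r) 1)
        (fun i : Fin N => x t i) / ((Matrix.vandermonde (fun i : Fin N => x t i)).det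
          * (Matrix.vandermonde (fun i : Fin N => x t i)).det))) := by
    filter_upwards [hpos, hinj] with t ht hit
    have hzinj : Function.Injective (z t) := by
      intro a b hab
      exact Fin.ext (hit hab)
    have hGn : Gn (List.ofFn (z t)) := by
      constructor
      · intro y hy
        rw [List.mem_ofFn] at hy
        obtain ⟨i, rfl⟩ := hy
        simp only [hz, hx]
        have : (0 : ℝ) < 1 + t * (i : ℕ) := by positivity
        exact_mod_cast this.ne'
      · rw [List.map_ofFn, List.nodup_ofFn]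
        intro a b hab
        simp only [hz, hx, Function.comp] at hab
        have h3 : (1 + t * (a : ℕ) : ℝ) ^ 3 = (1 + t * (b : ℕ) : ℝ) ^ 3 := by exact_mod_cast hab
        have h4 : (1 + t * (a : ℕ) : ℝ) = 1 + t * (b : ℕ) :=
          (pow_left_inj₀ (by positivity) (by positivity) (by norm_num)).mp h3
        have h5 : t * ((a : ℕ) : ℝ) = t * ((b : ℕ) : ℝ) := by linarith
        have h6 := mul_left_cancel₀ ht.ne' h5
        exact Fin.ext (by exact_mod_cast h6)
    have h1 := hform A B (z t) (by simp [hA]) (by simp [hB]) hGn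
    rw [vd_eq] at h1
    have hAA : A ++ B = List.replicate (p + r) 1 := by
      rw [hA, hB, List.replicate_append_replicate]
    rw [hAA] at h1
    have hV : (Matrix.vandermonde (z t)).det ≠ 0 := Matrix.det_vandermonde_ne_zero_iff.mpr hzinj
    have hVV : (Matrix.vandermonde (z t)).det * (Matrix.vandermonde (z t)).det ≠ 0 :=
      mul_ne_zero hV hV
    change _ = _ * (_ * (_ / ((Matrix.vandermonde (z t)).det * (Matrix.vandermonde (z t)).det)))
    rw [← mul_div_assoc, ← mul_div_assoc, eq_div_iff hVV]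
    exact h1
  have hfin := tendsto_nhds_unique (hGt.congr' heq) hRHS
  rw [List.ofFn_const] at hfin
  rw [hfin]
  have hw : (-q) ^ (p + r) * (-q ^ 2) ^ (p + r) = 1 := by
    rw [← mul_pow, show (-q * -q ^ 2) = q ^ 3 by ring, hq3, one_pow]
  rw [hw]
  have hRR : RR N (p + r) 0 = ‖Dl N (p + r) 1‖ := by
    unfold RR
    simp
  rw [hRR]
  obtain ⟨n1, n2, n3, -⟩ := norms hq
  have hq' : (q ^ 2) ^ 2 + q ^ 2 + 1 = 0 := by linear_combination (q ^ 2 - q + 1) * hq
  have hs : 0 < Real.sqrt 3 := Real.sqrt_pos.2 (by norm_num)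
  have hs2 : Real.sqrt 3 ^ 2 = 3 := Real.sq_sqrt (by norm_num)
  obtain ⟨a, ha⟩ : 2 ∣ p * (p - 1) := (Nat.even_mul_pred_self p).two_dvd
  obtain ⟨b, hb⟩ : 2 ∣ r * (r - 1) := (Nat.even_mul_pred_self r).two_dvd
  obtain ⟨c, hc⟩ : 2 ∣ N * (N - 1) := (Nat.even_mul_pred_self N).two_dvd
  have hp1 := pfq_norm1 hq p a ha.symm
  have hp2 := pfq_norm1 hq' r b hb.symm
  rw [hm, Nat.add_sub_cancel] at hκ
  have hkk := THV.kap_norm hκ
  have hex := THV.expo p r N m a b c hm ha.symm hb.symm hc.symm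
  simp only [norm_mul, norm_pow, norm_div, norm_neg, n1, n2, n3, norm_one]
  have e3 : ‖(3 : ℂ)‖ = 3 := by norm_num
  rw [e3, hc, Nat.mul_div_cancel_left c (by norm_num)]
  rw [← hA] at hp1
  rw [← hB] at hp2
  rw [hp1, hp2]
  generalize ‖Dl N (p + r) 1‖ = D at *
  generalize ‖κ‖ = κ' at *
  generalize (p + N - 1) ^ 2 / 4 + (r + N - 1) ^ 2 / 4 = E at *
  generalize Real.sqrt 3 = s at *
  have hsN : s ^ (m + N) ≠ 0 := pow_ne_zero _ hs.ne'
  refine mul_left_cancel₀ hsN ?_
  have f1 : s ^ (m + N) * (κ' * s ^ a * s ^ b * (3 ^ (2 * c) * 1 * ((1 / s) ^ N * (1 / 3) ^ c *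
      s ^ ((p + r) * N) * D))) = (κ' * s ^ m) * ((1 / s * s) ^ N) *
        ((1 / 3 * 3) ^ c * 3 ^ c) * (s ^ a * s ^ b * s ^ ((p + r) * N)) * D := by
    rw [pow_add, mul_pow, mul_pow, two_mul c, pow_add]
    ring
  have f2 : (1 / s * s) = 1 := by rw [one_div, inv_mul_cancel₀ hs.ne']
  have f3 : (3 : ℝ) ^ c = s ^ (2 * c) := by rw [pow_mul, hs2]
  have f4 : (3 : ℝ) ^ E = s ^ (2 * E) := by rw [pow_mul s 2, hs2]
  have f5 : (1 / 3 * 3 : ℝ) = 1 := by norm_num
  have f6 : s ^ (2 * c) * (s ^ a * s ^ b * s ^ ((p + r) * N)) =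
      s ^ (m + N) * s ^ (2 * E) := by
    rw [← pow_add, ← pow_add, ← pow_add, ← pow_add]
    congr 1
    omega
  rw [f1, f2, hkk, f3, f4, f5, one_pow, one_pow]
  linear_combination D * f6

end Pool.Agent.W801.OL
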