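import Pool.Agent.W801.OL.Stm

/-!
# The normalisation for all circumferences
-/

set_option autoImplicit false

namespace Pool.Agent.W801.OL
open Pool.Agent.H863R2.Cyl
open Pool.Agent.H988R2.Perc (Word PD)
open Pool.Agent.H160R2.ML (Good ee Cn Lg pt GG prE pfq Gn T lg Dl RR)

namespace TNT

theorem prE_one (e : ℕ → ℕ → Word → Word → ℂ) (p r N' N : ℕ) {v' v : VW} (hv' : v' ∈ VN N')
    (hv : v ∈ VN N)
    (he : ∀ w' w : Word, w'.length = N' → Ok w' → w.length = N → Ok w → e p r w' w = 1) :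
    prE e p r v' v = tot v' * tot v := by
  unfold VN at hv hv'
  rw [Finsupp.mem_supported] at hv hv'
  unfold prE tot
  simp only [Finsupp.linearCombination_apply, Finsupp.sum, LinearMap.sum_apply,
    LinearMap.smul_apply, smul_eq_mul, mul_one]
  rw [Finset.sum_mul]
  refine Finset.sum_congr rfl fun w' hw' => ?_
  congr 1
  refine Finset.sum_congr rfl fun w hw => ?_
  obtain ⟨h1, h2⟩ := hv' hw'
  obtain ⟨h3, h4⟩ := hv hw
  rw [he w' w h1 h2 h3 h4, mul_one]

theorem RR0 (l : ℕ) (θ : ℝ) : RR 0 l θ = 1 := by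
  unfold RR Pool.Agent.H160R2.ML.Dl
  rw [Matrix.det_fin_zero]
  simp

theorem tot_nil : tot (bs []) = 1 := by
  unfold tot
  rw [Finsupp.linearCombination_single]
  simp

end TNT

theorem t_NT : S_LS → S_one → S_HV → Pool.Agent.H160R2.ML.S_M0 → S_NT := by
  intro hLS hone hHV hM0 q Ψ Ψ' hq hF hF'
  have hDat : Dat q 1 ee Ψ Ψ' := ⟨hq, odd_one, hLS 1 odd_one, hF, hF'⟩
  set a : ℕ → ℝ := fun N => ‖tot (Ψ (List.replicate N 1))‖ with ha
  set b : ℕ → ℝ := fun N => ‖tot (Ψ' (List.replicate N 1))‖ with hb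
  have ha0 : ∀ N, 0 < a N := fun N => norm_pos_iff.mpr (hF.tot_ne N)
  have hb0 : ∀ N, 0 < b N := fun N => norm_pos_iff.mpr (hF'.tot_ne N)
  have hmem : ∀ N, Ψ (List.replicate N 1) ∈ VN N := by
    intro N
    have := hF.mem (List.replicate N 1)
    rwa [List.length_replicate] at this
  have hmem' : ∀ N, Ψ' (List.replicate N 1) ∈ VN N := by
    intro N
    have := hF'.mem (List.replicate N 1)
    rwa [List.length_replicate] at this
  have e1 : ∀ N, a (N + 1) * b N = 3 ^ (N ^ 2 / 4 + (N - 1) ^ 2 / 4) * RR N 1 0 := by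
    intro N
    have h1 := hHV q 1 0 N ee Ψ Ψ' hDat
    have h2 : GG ee Ψ' Ψ (List.replicate 1 1) (List.replicate 0 1) (List.replicate N 1)
        = tot (Ψ' (List.replicate N 1)) * tot (Ψ (List.replicate (N + 1) 1)) := by
      unfold GG
      have h3 : (List.replicate 1 (1 : ℂ)) ++ List.replicate N 1 = List.replicate (N + 1) 1 := by
        rw [← List.replicate_add, Nat.add_comm]
      have h4 : (List.replicate 0 (1 : ℂ)) ++ List.replicate N 1 = List.replicate N 1 := by simp
      rw [h3, h4, List.length_replicate, List.length_replicate]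
      refine TNT.prE_one ee 1 0 N (N + 1) (hmem' N) (hmem (N + 1)) ?_
      intro w' w hl' hk' hl hk
      exact hone ee hDat.he 1 0 w' w rfl hk' hk (by omega) (by omega)
    rw [h2, norm_mul] at h1
    have e2 : 1 + N - 1 = N := by omega
    have e3 : 0 + N - 1 = N - 1 := by omega
    rw [e2, e3] at h1
    rw [ha, hb]
    linear_combination h1
  have e2 : ∀ N, b (N + 1) * a N = 3 ^ (N ^ 2 / 4 + (N - 1) ^ 2 / 4) * RR N 1 0 := by
    intro N
    have h1 := hHV q 0 1 N ee Ψ Ψ' hDat
    have h2 : GG ee Ψ' Ψ (List.replicate 0 1) (List.replicate 1 1) (List.replicate N 1)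
        = tot (Ψ' (List.replicate (N + 1) 1)) * tot (Ψ (List.replicate N 1)) := by
      unfold GG
      have h3 : (List.replicate 1 (1 : ℂ)) ++ List.replicate N 1 = List.replicate (N + 1) 1 := by
        rw [← List.replicate_add, Nat.add_comm]
      have h4 : (List.replicate 0 (1 : ℂ)) ++ List.replicate N 1 = List.replicate N 1 := by simp
      rw [h3, h4, List.length_replicate, List.length_replicate]
      refine TNT.prE_one ee 0 1 (N + 1) N (hmem' (N + 1)) (hmem N) ?_
      intro w' w hl' hk' hl hk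
      exact hone ee hDat.he 0 1 w' w rfl hk' hk (by omega) (by omega)
    rw [h2, norm_mul] at h1
    have e2 : 1 + N - 1 = N := by omega
    have e3 : 0 + N - 1 = N - 1 := by omega
    rw [e2, e3] at h1
    have e4 : (0 : ℕ) + 1 = 1 := rfl
    rw [e4, Nat.add_comm ((N - 1) ^ 2 / 4) (N ^ 2 / 4)] at h1
    rw [ha, hb]
    linear_combination h1
  have h00 : a 0 = 1 := by
    rw [ha]
    show ‖tot (Ψ [])‖ = 1
    rw [hF.nil, TNT.tot_nil, norm_one]
  have h00' : b 0 = 1 := by
    rw [hb]
    show ‖tot (Ψ' [])‖ = 1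
    rw [hF'.nil, TNT.tot_nil, norm_one]
  have hab : ∀ N, a N = b N := by
    intro N
    induction N with
    | zero => rw [h00, h00']
    | succ N ih =>
      have h1 := (e1 N).trans (e2 N).symm
      rw [← ih] at h1
      exact mul_right_cancel₀ (ha0 N).ne' h1
  set s : ℕ → ℝ := fun N => if Even N then 1 else Real.sqrt 3 with hs
  have h3pos : 0 < Real.sqrt 3 := Real.sqrt_pos.mpr (by norm_num)
  have hs0 : ∀ N, 0 < s N := by
    intro N
    rw [hs]
    dsimp only
    split_ifs
    · exact one_pos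
    · exact h3pos
  have hss : ∀ N, s N * s (N + 1) = Real.sqrt 3 := by
    intro N
    rw [hs]
    dsimp only
    by_cases h : Even N
    · rw [if_pos h, if_neg (by rw [Nat.even_add_one]; exact not_not.mpr h), one_mul]
    · rw [if_neg h, if_pos (by rw [Nat.even_add_one]; exact h), mul_one]
  have main : ∀ N, a N ^ 2 * s N = 3 ^ (2 * ((N - 1) ^ 2 / 4)) * RR N 0 (Real.pi / 3) := by
    intro N
    induction N with
    | zero =>
      rw [h00, TNT.RR0, hs]
      simp
    | succ N ih =>
      have h1 := e1 N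
      rw [← hab N] at h1
      have h2 := hM0 N
      have h3 := hss N
      have hpos : a N ^ 2 * s N ≠ 0 := by
        have := ha0 N
        have := hs0 N
        positivity
      have e5 : N + 1 - 1 = N := by omega
      rw [e5]
      apply mul_right_cancel₀ hpos
      calc a (N + 1) ^ 2 * s (N + 1) * (a N ^ 2 * s N)
          = (a (N + 1) * a N) ^ 2 * (s N * s (N + 1)) := by ring
        _ = (3 ^ (N ^ 2 / 4 + (N - 1) ^ 2 / 4)) ^ 2 * (Real.sqrt 3 * RR N 1 0 ^ 2) := by
            rw [h1, h3]; ring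
        _ = (3 ^ (N ^ 2 / 4 + (N - 1) ^ 2 / 4)) ^ 2 *
              (RR (N + 1) 0 (Real.pi / 3) * RR N 0 (Real.pi / 3)) := by rw [h2]
        _ = 3 ^ (2 * (N ^ 2 / 4)) * RR (N + 1) 0 (Real.pi / 3) *
              (3 ^ (2 * ((N - 1) ^ 2 / 4)) * RR N 0 (Real.pi / 3)) := by
            rw [← pow_mul, Nat.add_mul, pow_add, Nat.mul_comm (N ^ 2 / 4) 2,
              Nat.mul_comm ((N - 1) ^ 2 / 4) 2]
            ring
        _ = _ := by rw [ih]
  intro N
  exact ⟨hab N, main N⟩

end Pool.Agent.W801.OL
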