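import Pool.Agent.W801.OL.Stm
import Pool.Agent.H863R2.Cyl.Value
import Pool.Agent.H863R2.Cyl.FEx

/-! # An odd number of legs, task PB: the exact probability -/

set_option autoImplicit false

namespace Pool.Agent.W801.OL
open Pool.Agent.H863R2.Cyl
open Pool.Agent.H988R2.Perc (Word PD)
open Pool.Agent.H160R2.ML (Good ee Cn Lg pt GG prE pfq Gn T lg Dl RR)

namespace TPB

lemma prE_eq {N N' : ℕ} (e : ℕ → ℕ → Word → Word → ℂ) (p r : ℕ) {v' v : VW} (hv' : v' ∈ VN N')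
    (hv : v ∈ VN N) :
    prE e p r v' v = ∑ τ : Wd N', ∑ σ : Wd N, v' τ.1 * v σ.1 * e p r τ.1 σ.1 := by
  unfold prE
  rw [ValueAux.lc_eq _ hv', LinearMap.sum_apply]
  apply Finset.sum_congr rfl
  intro τ _
  rw [LinearMap.smul_apply, ValueAux.lc_eq _ hv, smul_eq_mul, Finset.mul_sum]
  apply Finset.sum_congr rfl
  intro σ _
  rw [smul_eq_mul]
  ring

end TPB

open Classical in
theorem t_PB : S_LS → S_HV → S_NT → S_PB := by
  intro hLS hHV hNT p r M m n hodd hm hn μ ν hμ0 hμ hν0 hν hst hst'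
  obtain ⟨q, hq⟩ : ∃ q : ℂ, q ^ 2 + q + 1 = 0 := ⟨_, Pool.Agent.H988R2.Perc.q_spec⟩
  have hq2 : (q ^ 2) ^ 2 + q ^ 2 + 1 = 0 := by
    calc (q ^ 2) ^ 2 + q ^ 2 + 1 = (q ^ 2 + q + 1) * (q ^ 2 - q + 1) := by ring
      _ = 0 := by rw [hq, zero_mul]
  obtain ⟨Ψ, hΨ⟩ := exists_Fam q hq
  obtain ⟨Ψ', hΨ'⟩ := exists_Fam (q ^ 2) hq2
  set one := List.replicate (m + 1) (1 : ℂ) with hone
  set one' := List.replicate (n + 1) (1 : ℂ) with hone'
  set T := tot (Ψ one) with hT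
  set T' := tot (Ψ' one') with hT'
  have hmem : Ψ one ∈ VN (m + 1) := by
    have := hΨ.mem one
    rwa [hone, List.length_replicate] at this
  have hmem' : Ψ' one' ∈ VN (n + 1) := by
    have := hΨ'.mem one'
    rwa [hone', List.length_replicate] at this
  have e1 := ValueAux.eq_mu hΨ m μ hμ hst
  have e2 := ValueAux.eq_mu hΨ' n ν hν hst'
  have hDat : Dat q (p + r) ee Ψ Ψ' := ⟨hq, hodd, hLS (p + r) hodd, hΨ, hΨ'⟩
  have v0 := hHV q p r M ee Ψ Ψ' hDat
  have hrep : List.replicate p (1 : ℂ) ++ List.replicate M 1 = one := by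
    rw [← List.replicate_add, hone, hm]
  have hrep' : List.replicate r (1 : ℂ) ++ List.replicate M 1 = one' := by
    rw [← List.replicate_add, hone', hn]
  unfold GG at v0
  rw [hrep, hrep', List.length_replicate, List.length_replicate,
    TPB.prE_eq ee p r hmem' hmem] at v0
  set S : ℝ := PP p r m n μ ν with hS
  have v1 : ∑ τ : Wd (n + 1), ∑ σ : Wd (m + 1), Ψ' one' τ.1 * Ψ one σ.1 * ee p r τ.1 σ.1
      = T' * T * (S : ℂ) := by
    rw [hS]
    unfold PP
    push_cast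
    rw [Finset.sum_comm, Finset.mul_sum]
    apply Finset.sum_congr rfl
    intro σ _
    rw [Finset.mul_sum]
    apply Finset.sum_congr rfl
    intro τ _
    rw [e1 σ, e2 τ]
    unfold ee
    by_cases h : Good p r τ.1 σ.1
    · rw [if_pos h, if_pos h]
      push_cast
      ring
    · rw [if_neg h, if_neg h]
      push_cast
      ring
  rw [v1] at v0
  have hS0 : 0 ≤ S := by
    rw [hS]
    unfold PP
    apply Finset.sum_nonneg
    intro σ _
    apply Finset.sum_nonneg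
    intro τ _
    have h1 := hμ0 σ
    have h2 := hν0 τ
    split_ifs
    · positivity
    · rw [zero_mul, zero_mul]
  rw [norm_mul, norm_mul, Complex.norm_real, Real.norm_of_nonneg hS0] at v0
  have n1 := (hNT q Ψ Ψ' hq hΨ hΨ' (m + 1)).2
  have n2 := (hNT q Ψ Ψ' hq hΨ hΨ' (n + 1)).2
  rw [(hNT q Ψ Ψ' hq hΨ hΨ' (n + 1)).1] at n2
  rw [← hone, ← hT, hm] at n1
  rw [← hone', ← hT', hn] at n2
  have hpar : (if Even (p + M) then (1 : ℝ) else Real.sqrt 3) *
      (if Even (r + M) then (1 : ℝ) else Real.sqrt 3) = Real.sqrt 3 := by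
    by_cases h1 : Even (p + M)
    · have h2 : ¬ Even (r + M) := by
        rw [Nat.even_add] at h1 ⊢
        rw [Nat.odd_add] at hodd
        rw [← Nat.not_even_iff_odd] at hodd
        tauto
      rw [if_pos h1, if_neg h2, one_mul]
    · have h2 : Even (r + M) := by
        rw [Nat.even_add] at h1 ⊢
        rw [Nat.odd_add] at hodd
        rw [← Nat.not_even_iff_odd] at hodd
        tauto
      rw [if_neg h1, if_pos h2, mul_one]
  generalize (if Even (p + M) then (1 : ℝ) else Real.sqrt 3) = a at n1 hpar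
  generalize (if Even (r + M) then (1 : ℝ) else Real.sqrt 3) = a' at n2 hpar
  rw [pow_add] at v0
  rw [pow_mul'] at n1 n2
  have hE1 : (0 : ℝ) < 3 ^ ((p + M - 1) ^ 2 / 4) := by positivity
  have hE2 : (0 : ℝ) < 3 ^ ((r + M - 1) ^ 2 / 4) := by positivity
  generalize (3 : ℝ) ^ ((p + M - 1) ^ 2 / 4) = E1 at n1 v0 hE1
  generalize (3 : ℝ) ^ ((r + M - 1) ^ 2 / 4) = E2 at n2 v0 hE2
  generalize RR (p + M) 0 (Real.pi / 3) = R1 at n1 ⊢
  generalize RR (r + M) 0 (Real.pi / 3) = R2 at n2 ⊢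
  generalize RR M (p + r) 0 = R at v0 ⊢
  generalize ‖T‖ = t at n1 v0
  generalize ‖T'‖ = t' at n2 v0
  have hpos : (0 : ℝ) < (E1 * E2) ^ 2 := by positivity
  apply mul_left_cancel₀ hpos.ne'
  have v2 : (t' * t * S) ^ 2 = (E1 * E2 * R) ^ 2 := by rw [v0]
  calc (E1 * E2) ^ 2 * (S ^ 2 * (R1 * R2)) = S ^ 2 * (E1 ^ 2 * R1) * (E2 ^ 2 * R2) := by ring
    _ = S ^ 2 * (t ^ 2 * a) * (t' ^ 2 * a') := by rw [n1, n2]
    _ = (t' * t * S) ^ 2 * (a * a') := by ring
    _ = (E1 * E2 * R) ^ 2 * Real.sqrt 3 := by rw [v2, hpar]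
    _ = (E1 * E2) ^ 2 * (Real.sqrt 3 * R ^ 2) := by ring

end Pool.Agent.W801.OL
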