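import Pool.Agent.W801.OL.Stm
import Pool.Agent.H160R2.ML.T_TA

/-!
# The exact formula with legs (task TA)
-/

set_option autoImplicit false

namespace Pool.Agent.W801.OL
open Pool.Agent.H863R2.Cyl
open Pool.Agent.H988R2.Perc (Word PD)
open Pool.Agent.H160R2.ML (Good ee Cn Lg pt GG prE pfq Gn T lg Dl RR S_TP S_RP S_RM)
open Pool.Agent.W808.HB (bwm kap)

namespace TTA

open DetPAux (q3 q_ne lv Uv wd_cons)
open Pool.Agent.H160R2.ML.TTA (pfq_append lg_append map_scale map_sq fac_eq lg_congr lg_ne Gn_perm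
  Gn_sub Gn_cons Gn_append Gn_inj Gn_Gen Uv_sq1 Uv_sq2 deg_lin eval_lin nrm nrm1 nrm2 wd_sq)

/-! ### moving a leg -/

theorem move {q : ℂ} {l : ℕ} {e : ℕ → ℕ → Word → Word → ℂ} {Ψ Ψ' : List ℂ → VW} (hL : S_legx)
    (D : Dat q l e Ψ Ψ') (B z : List ℂ) (x : ℂ) (v : List ℂ) : ∀ u : List ℂ,
    u.length + v.length + 1 + B.length = l →
    (v.map (fun a => q * a - q ^ 2 * x)).prod * GG e Ψ' Ψ (u ++ v ++ [x]) B z =
      (v.map (fun a => q * x - q ^ 2 * a)).prod * GG e Ψ' Ψ (u ++ x :: v) B z := by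
  induction v with
  | nil => intro u _; simp
  | cons a v ih =>
    intro u hl
    rw [List.length_cons] at hl
    have h1 := ih (u ++ [a]) (by rw [List.length_append, List.length_singleton]; omega)
    have h2 := hL q l e Ψ Ψ' D u v B z x a (by omega)
    have e2 : u ++ [a] ++ v ++ [x] = u ++ (a :: v) ++ [x] := by simp
    have e3 : u ++ [a] ++ x :: v = u ++ a :: x :: v := by simp
    rw [e2, e3] at h1
    rw [List.map_cons, List.prod_cons, List.map_cons, List.prod_cons, mul_assoc, h1]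
    linear_combination (v.map (fun a => q * x - q ^ 2 * a)).prod * h2

/-- the partition function vanishes if the last leg is `q` times another leg -/
theorem van {q : ℂ} {l : ℕ} {e : ℕ → ℕ → Word → Word → ℂ} {Ψ Ψ' : List ℂ → VW} (hL : S_legx)
    (D : Dat q l e Ψ Ψ') (B z : List ℂ) (A : List ℂ) (hl : A.length + 1 + B.length = l)
    (hA : Gn A) (a : ℂ) (ha : a ∈ A) :
    GG e Ψ' Ψ (A ++ [q * a]) B z = 0 := by
  have hq := D.hq
  have h3 : q ^ 3 = 1 := q3 hq
  obtain ⟨u, v, rfl⟩ := List.append_of_mem ha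
  have hGv : ∀ b ∈ v, a ^ 3 ≠ b ^ 3 := Gn_cons (Gn_sub (List.sublist_append_right u (a :: v)) hA)
  rw [List.length_append, List.length_cons] at hl
  have h1 := move hL D B z (q * a) v (u ++ [a])
    (by rw [List.length_append, List.length_singleton]; omega)
  have h2 := hL q l e Ψ Ψ' D u v B z (q * a) a (by omega)
  have ha0 : a ≠ 0 := hA.1 a ha
  have h4 : GG e Ψ' Ψ (u ++ a :: (q * a) :: v) B z = 0 := by
    have h5 : (q * a - q ^ 2 * (q * a)) * GG e Ψ' Ψ (u ++ a :: (q * a) :: v) B z = 0 := by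
      rw [h2]
      ring
    rcases mul_eq_zero.1 h5 with h6 | h6
    · exfalso
      have h7 : (q - 1) * a = 0 := by linear_combination h6 + a * h3
      rcases mul_eq_zero.1 h7 with h8 | h8
      · exact DetGAux.q_ne1 hq (sub_eq_zero.1 h8)
      · exact ha0 h8
    · exact h6
  have e2 : u ++ [a] ++ v ++ [q * a] = u ++ (a :: v) ++ [q * a] := by simp
  have e3 : u ++ [a] ++ (q * a) :: v = u ++ a :: (q * a) :: v := by simp
  rw [e2, e3, h4, mul_zero] at h1
  rcases mul_eq_zero.1 h1 with h6 | h6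
  · exfalso
    rw [List.prod_eq_zero_iff, List.mem_map] at h6
    obtain ⟨b, hb, h7⟩ := h6
    apply hGv b hb
    have h8 : a = q * b := by linear_combination -h7 - a * h3
    rw [h8, mul_pow, h3, one_mul]
  · exact h6

/-! ### the formula -/

def Form (q : ℂ) (l : ℕ) (e : ℕ → ℕ → Word → Word → ℂ) (Ψ Ψ' : List ℂ → VW) (κ : ℂ)
    (p r N : ℕ) : Prop :=
  ∀ (A B : List ℂ) (z : Fin N → ℂ), A.length = p → B.length = r →
    Gn (A ++ B ++ List.ofFn z) →
    GG e Ψ' Ψ A B (List.ofFn z) * vd z =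
      κ * pfq q A * pfq (q ^ 2) B * (wd q z * (∏ i, z i) * T q ((-q) ^ l) (A ++ B) z)

/-- value at `x = q² y` -/
theorem evR {q : ℂ} {l : ℕ} {e : ℕ → ℕ → Word → Word → ℂ} {Ψ Ψ' : List ℂ → VW}
    (hR : S_mvR) (hP : S_TP) (hRM : S_RM) (D : Dat q l e Ψ Ψ') {κ : ℂ} {p r N : ℕ}
    (hl : p + 1 + r = l) (hF : Form q l e Ψ Ψ' κ p (r + 1) N)
    (A B : List ℂ) (y : ℂ) (z : Fin N → ℂ) (hA : A.length = p) (hB : B.length = r)
    (hG : Gn (A ++ B ++ y :: List.ofFn z)) :
    GG e Ψ' Ψ (A ++ [q ^ 2 * y]) B (y :: List.ofFn z) * vd (Fin.cons y z : Fin (N + 1) → ℂ) =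
      ((-q) ^ (l + 1) * κ) * pfq q (A ++ [q ^ 2 * y]) * pfq (q ^ 2) B *
        (wd q (Fin.cons y z : Fin (N + 1) → ℂ) * (∏ i, (Fin.cons y z : Fin (N + 1) → ℂ) i) *
          T q ((-q) ^ l) (A ++ [q ^ 2 * y] ++ B) (Fin.cons y z : Fin (N + 1) → ℂ)) := by
  have hq := D.hq
  have h3 : q ^ 3 = 1 := q3 hq
  have e0 : q * (q ^ 2 * y) = y := by linear_combination y * h3
  have hmv := hR q l e Ψ Ψ' D A B (List.ofFn z) (q ^ 2 * y) (by rw [hA, hB]; exact hl)
  rw [e0] at hmv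
  have hfac := fac_eq q (q ^ 2 * y) A z
  have e1 : lg A (q ^ 2) (q ^ 2 * y) = lg A q y := lg_congr A (by linear_combination (q * y) * h3)
  have e2 : ∀ j, z j - q ^ 2 * (q ^ 2 * y) = z j - q * y := fun j => by
    linear_combination (-q * y) * h3
  rw [e1, Finset.prod_congr rfl fun j _ => by rw [e2 j]] at hfac
  have hIH := hF A (B ++ [y]) z hA (by rw [List.length_append, hB, List.length_singleton])
    (by
      have e : A ++ (B ++ [y]) ++ List.ofFn z = A ++ B ++ y :: List.ofFn z := by simp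
      rw [e]; exact hG)
  have hGc : Gn (List.ofFn (Fin.cons y z : Fin (N + 1) → ℂ)) := by
    have e : List.ofFn (Fin.cons y z : Fin (N + 1) → ℂ) = y :: List.ofFn z := by
      rw [List.ofFn_succ]
      simp
    rw [e]
    exact Gn_sub (List.sublist_append_right _ _) hG
  have hgen : Gen q (Fin.cons y z : Fin (N + 1) → ℂ) := Gn_Gen hq hGc
  have hT := hRM q ((-q) ^ l) hq (A ++ B) N y z hgen
  have hT1 : T q ((-q) ^ l) (A ++ [q ^ 2 * y] ++ B) (Fin.cons y z : Fin (N + 1) → ℂ) =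
      T q ((-q) ^ l) ((q ^ 2 * y) :: (A ++ B)) (Fin.cons y z : Fin (N + 1) → ℂ) := by
    refine ((hP q ((-q) ^ l) (A ++ [q ^ 2 * y] ++ B) (N + 1) _).2.2.1 _ ?_).1
    rw [List.append_assoc, List.singleton_append]
    exact List.perm_middle
  have hT2 : T q ((-q) ^ l) (A ++ (B ++ [y])) z = T q ((-q) ^ l) (y :: (A ++ B)) z := by
    refine ((hP q ((-q) ^ l) (A ++ (B ++ [y])) N z).2.2.1 _ ?_).1
    rw [← List.append_assoc]
    exact List.perm_append_singleton y (A ++ B)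
  have hp1 : pfq (q ^ 2) (B ++ [y]) = pfq (q ^ 2) B * ((-q) ^ r * lg B q y) := by
    rw [pfq_append, map_scale B _ (fun b => b - q * y) (-q) (fun b => by
      linear_combination (-q * b) * h3), hB]
    rfl
  have hp2 : pfq q (A ++ [q ^ 2 * y]) = pfq q A * ((-q ^ 2) ^ p * lg A q y) := by
    rw [pfq_append, map_scale A _ (fun b => b - q * y) (-q ^ 2) (fun b => by ring), hA]
    rfl
  have hc : (-q) ^ r * q ^ 2 = (-q) ^ (l + 1) * (-q ^ 2) ^ p := by
    rw [← hl]
    have e1 : ((-q) * (-q ^ 2)) ^ p = 1 := by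
      have : (-q) * (-q ^ 2) = 1 := by linear_combination h3
      rw [this, one_pow]
    calc (-q) ^ r * q ^ 2 = (-q) ^ r * q ^ 2 * ((-q) * (-q ^ 2)) ^ p := by rw [e1, mul_one]
      _ = (-q) ^ (p + 1 + r + 1) * (-q ^ 2) ^ p := by rw [mul_pow]; ring
  rw [hmv, hfac, hT1, hp2, wd_cons, DetGAux.vd_cons, Fin.prod_univ_succ, Fin.cons_zero, Uv_sq1 hq]
  rw [hT2, hp1] at hIH
  rw [lg_append] at hT
  simp only [Fin.cons_succ]
  generalize GG e Ψ' Ψ A (B ++ [y]) (List.ofFn z) = G at *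
  generalize T q ((-q) ^ l) ((q ^ 2 * y) :: (A ++ B)) (Fin.cons y z : Fin (N + 1) → ℂ) = T1 at *
  generalize T q ((-q) ^ l) (y :: (A ++ B)) z = T2 at *
  generalize (∏ j, (z j - q * y) ^ 2) = P2 at *
  generalize (∏ j, (q * (y - q * z j) ^ 2)) = P3 at *
  generalize (∏ j, (y - z j) ^ 2) = P1 at *
  generalize lg A q y = LA at *
  generalize lg B q y = LB at *
  generalize (-q) ^ r = qr at *
  generalize (-q ^ 2) ^ p = qp at *
  generalize (-q) ^ (l + 1) = ql at *
  linear_combination (q ^ 2 * y * LA ^ 2 * P2 * P1) * hIH -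
    ((ql * κ) * pfq q A * qp * LA * pfq (q ^ 2) B * P2 * wd q z * y * (∏ i, z i)) * hT +
    (κ * pfq q A * LA ^ 2 * pfq (q ^ 2) B * P2 * LB * P1 * T2 * wd q z * y * (∏ i, z i)) * hc

/-- value at `x = q y` -/
theorem evL {q : ℂ} {l : ℕ} {e : ℕ → ℕ → Word → Word → ℂ} {Ψ Ψ' : List ℂ → VW}
    (hx : S_legx) (ht : S_thr) (hR : S_mvL) (hP : S_TP) (hRP : S_RP) (D : Dat q l e Ψ Ψ')
    {κ : ℂ} {p r N : ℕ}
    (hl : p + 1 + r = l) (hF : Form q l e Ψ Ψ' κ p (r + 1) N)
    (A B : List ℂ) (y : ℂ) (z : Fin N → ℂ) (hA : A.length = p) (hB : B.length = r)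
    (hG : Gn (A ++ B ++ y :: List.ofFn z)) :
    GG e Ψ' Ψ (A ++ [q * y]) B (y :: List.ofFn z) * vd (Fin.cons y z : Fin (N + 1) → ℂ) =
      ((-q) ^ (l + 1) * κ) * pfq q (A ++ [q * y]) * pfq (q ^ 2) B *
        (wd q (Fin.cons y z : Fin (N + 1) → ℂ) * (∏ i, (Fin.cons y z : Fin (N + 1) → ℂ) i) *
          T q ((-q) ^ l) (A ++ [q * y] ++ B) (Fin.cons y z : Fin (N + 1) → ℂ)) := by
  have hq := D.hq
  have h3 : q ^ 3 = 1 := q3 hq
  have hq0 : q ≠ 0 := q_ne hq
  have hGz : Gn (y :: List.ofFn z) := Gn_sub (List.sublist_append_right _ _) hG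
  have hmv := hR q l e Ψ Ψ' D A B (List.ofFn z) y (by rw [hA, hB]; exact hl)
  have hperm : (y :: List.ofFn z).Perm (List.ofFn z ++ [y]) :=
    (List.perm_append_singleton y (List.ofFn z)).symm
  have hthr := ht q l e Ψ Ψ' D ((q * y) :: A) B (y :: List.ofFn z) (List.ofFn z ++ [y]) hperm
    (by rw [List.length_cons, hA, hB]; exact hl) hGz
  have hmove := move hx D B (y :: List.ofFn z) (q * y) A []
    (by rw [List.length_nil, zero_add, hA, hB]; exact hl)
  rw [List.nil_append, List.nil_append, hthr, hmv] at hmove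
  have hL0 : (A.map (fun a => q * a - q ^ 2 * (q * y))).prod = q ^ p * lg A (q ^ 2) y := by
    rw [map_scale A _ (fun a => a - q ^ 2 * y) q (fun a => by ring), hA]
    rfl
  have hLne : lg A (q ^ 2) y ≠ 0 := by
    refine lg_ne A _ _ fun a ha hc => ?_
    have h1 := Gn_append hG a (List.mem_append_left _ ha) y (List.mem_cons_self)
    apply h1
    rw [hc]
    calc (q ^ 2 * y) ^ 3 = (q ^ 3) ^ 2 * y ^ 3 := by ring
      _ = y ^ 3 := by rw [h3]; ring
  have hfac := fac_eq q y A z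
  have hIH := hF A (y :: B) z hA (by rw [List.length_cons, hB])
    (by
      refine Gn_perm ?_ hG
      have e : A ++ (y :: B) ++ List.ofFn z = A ++ (y :: B ++ List.ofFn z) := by simp
      rw [e, List.append_assoc]
      refine List.Perm.append_left A ?_
      rw [List.cons_append]
      exact List.perm_middle)
  have hGc : Gn (List.ofFn (Fin.cons y z : Fin (N + 1) → ℂ)) := by
    have e : List.ofFn (Fin.cons y z : Fin (N + 1) → ℂ) = y :: List.ofFn z := by
      rw [List.ofFn_succ]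
      simp
    rw [e]
    exact hGz
  have hgen : Gen q (Fin.cons y z : Fin (N + 1) → ℂ) := Gn_Gen hq hGc
  have hT := hRP q ((-q) ^ l) hq (A ++ B) N y z hgen
  have hT1 : T q ((-q) ^ l) (A ++ [q * y] ++ B) (Fin.cons y z : Fin (N + 1) → ℂ) =
      T q ((-q) ^ l) ((q * y) :: (A ++ B)) (Fin.cons y z : Fin (N + 1) → ℂ) := by
    refine ((hP q ((-q) ^ l) (A ++ [q * y] ++ B) (N + 1) _).2.2.1 _ ?_).1
    rw [List.append_assoc, List.singleton_append]
    exact List.perm_middle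
  have hT2 : T q ((-q) ^ l) (A ++ (y :: B)) z = T q ((-q) ^ l) (y :: (A ++ B)) z := by
    refine ((hP q ((-q) ^ l) (A ++ (y :: B)) N z).2.2.1 _ ?_).1
    exact List.perm_middle
  have hp1 : pfq (q ^ 2) (y :: B) = (q ^ 2) ^ r * lg B (q ^ 2) y * pfq (q ^ 2) B := by
    rw [pfq, map_scale B _ (fun b => b - q ^ 2 * y) (q ^ 2) (fun b => by ring), hB]
    rfl
  have hp2 : pfq q (A ++ [q * y]) = pfq q A * (A.map (fun a => q * (q * y) - q ^ 2 * a)).prod :=
    pfq_append q (q * y) A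
  have hc : (q ^ 2) ^ r = -((-q) ^ l * q ^ p * (-q) ^ (l + 1)) := by
    rw [← hl]
    have e1 : (-q) ^ (p + 1 + r) * (-q) ^ (p + 1 + r) = (q ^ 2) ^ (p + 1 + r) := by
      rw [← mul_pow]
      congr 1
      ring
    calc (q ^ 2) ^ r = (q ^ 2) ^ r * (q ^ 3) ^ (p + 1) := by rw [h3]; ring
      _ = (q ^ 2) ^ (p + 1 + r) * q ^ p * q := by ring
      _ = -((-q) ^ (p + 1 + r) * q ^ p * (-q) ^ (p + 1 + r + 1)) := by
        rw [← e1, pow_succ (-q) (p + 1 + r)]
        ring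
  rw [hL0, hfac] at hmove
  rw [hT2, hp1] at hIH
  rw [lg_append] at hT
  refine mul_left_cancel₀ (mul_ne_zero (pow_ne_zero p hq0) hLne) ?_
  rw [hT1, hp2, wd_cons, DetGAux.vd_cons, Fin.prod_univ_succ, Fin.cons_zero, Uv_sq2 hq]
  simp only [Fin.cons_succ]
  generalize GG e Ψ' Ψ A (y :: B) (List.ofFn z) = G at *
  generalize GG e Ψ' Ψ (A ++ [q * y]) B (y :: List.ofFn z) = G1 at *
  generalize T q ((-q) ^ l) ((q * y) :: (A ++ B)) (Fin.cons y z : Fin (N + 1) → ℂ) = T1 at *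
  generalize T q ((-q) ^ l) (y :: (A ++ B)) z = T2 at *
  generalize (∏ j, (z j - q ^ 2 * y) ^ 2) = P2 at *
  generalize (∏ j, ((q ^ 2 * y - q * z j) * (y - q ^ 2 * z j))) = P3 at *
  generalize (∏ j, (y - z j) ^ 2) = P1 at *
  generalize lg A (q ^ 2) y = LA at *
  generalize lg B (q ^ 2) y = LB at *
  generalize (A.map (fun a => q * (q * y) - q ^ 2 * a)).prod = Pi at *
  generalize (q ^ 2) ^ r = qr at *
  generalize (-q) ^ (l + 1) = ql1 at *
  generalize (-q) ^ l = ql at *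
  generalize q ^ p = qp at *
  linear_combination (P1 * vd z) * hmove + (Pi * (y * (LA ^ 2 * P2)) * P1) * hIH -
    ((qp * LA) * (ql1 * κ) * pfq q A * Pi * pfq (q ^ 2) B * P2 * wd q z * y * (∏ i, z i)) * hT +
    (κ * pfq q A * LA ^ 2 * pfq (q ^ 2) B * P2 * LB * P1 * T2 * wd q z * y * (∏ i, z i) * Pi) * hc

/-! ### interpolation -/

theorem step {q : ℂ} {l : ℕ} {e : ℕ → ℕ → Word → Word → ℂ} {Ψ Ψ' : List ℂ → VW}
    (hx : S_legx) (ht : S_thr) (hmR : S_mvR) (hmL : S_mvL) (hdeg : S_deg) (hP : S_TP)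
    (hRP : S_RP) (hRM : S_RM) (D : Dat q l e Ψ Ψ') {κ : ℂ} {p r N : ℕ}
    (hl : p + 1 + r = l) (hF : Form q l e Ψ Ψ' κ p (r + 1) N) :
    Form q l e Ψ Ψ' ((-q) ^ (l + 1) * κ) (p + 1) r (N + 1) := by
  intro A0 B z hA0 hB hG
  have hq := D.hq
  have h3 : q ^ 3 = 1 := q3 hq
  have hq0 : q ≠ 0 := q_ne hq
  obtain ⟨A, a, rfl⟩ : ∃ A a, A0 = A ++ [a] := by
    rcases List.eq_nil_or_concat A0 with h | ⟨A, a, h⟩
    · rw [h] at hA0
      simp at hA0
    · exact ⟨A, a, by rw [h, List.concat_eq_append]⟩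
  have hA : A.length = p := by
    rw [List.length_append, List.length_singleton] at hA0
    omega
  have hG' : Gn (A ++ B ++ List.ofFn z) := by
    refine Gn_sub ?_ hG
    rw [List.append_assoc, List.append_assoc, List.append_assoc]
    exact List.Sublist.append_left (List.sublist_append_right [a] _) A
  have hGA : Gn A := Gn_sub ((List.sublist_append_left A B).trans (List.sublist_append_left _ _)) hG'
  have hGz : Gn (List.ofFn z) := Gn_sub (List.sublist_append_right _ _) hG'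
  have hGAz : ∀ b ∈ A, ∀ c ∈ List.ofFn z, b ^ 3 ≠ c ^ 3 := fun b hb =>
    Gn_append hG' b (List.mem_append_left _ hb)
  -- the statement at `x`
  have key0 : ∀ z1 : Fin (N + 1) → ℂ, Gn (A ++ B ++ List.ofFn z1) →
      GG e Ψ' Ψ (A ++ [q ^ 2 * z1 0]) B (List.ofFn z1) * vd z1 =
        ((-q) ^ (l + 1) * κ) * pfq q (A ++ [q ^ 2 * z1 0]) * pfq (q ^ 2) B *
          (wd q z1 * (∏ i, z1 i) * T q ((-q) ^ l) (A ++ [q ^ 2 * z1 0] ++ B) z1) := by
    intro z1 h1
    have e1 : List.ofFn z1 = z1 0 :: List.ofFn (Fin.tail z1) := List.ofFn_succ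
    have e2 : (Fin.cons (z1 0) (Fin.tail z1) : Fin (N + 1) → ℂ) = z1 := Fin.cons_self_tail z1
    have h := evR hmR hP hRM D hl hF A B (z1 0) (Fin.tail z1) hA hB (by rw [← e1]; exact h1)
    rw [e2, ← e1] at h
    exact h
  have keyj : ∀ j : Fin (N + 1),
      GG e Ψ' Ψ (A ++ [q ^ 2 * z j]) B (List.ofFn z) * vd z =
        ((-q) ^ (l + 1) * κ) * pfq q (A ++ [q ^ 2 * z j]) * pfq (q ^ 2) B *
          (wd q z * (∏ i, z i) * T q ((-q) ^ l) (A ++ [q ^ 2 * z j] ++ B) z) := by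
    intro j
    have hpm : (List.ofFn (z ∘ Equiv.swap 0 j)).Perm (List.ofFn z) :=
      Equiv.Perm.ofFn_comp_perm (Equiv.swap 0 j) z
    have h := key0 (z ∘ Equiv.swap 0 j) (Gn_perm (List.Perm.append_left (A ++ B) hpm.symm) hG')
    have e1 : (z ∘ Equiv.swap 0 j) 0 = z j := by simp
    have e2 : ∏ i, (z ∘ Equiv.swap 0 j) i = ∏ i, z i := Equiv.prod_comp _ _
    rw [e1, e2, DetGAux.vd_perm, DetGAux.wd_perm,
      ((hP q ((-q) ^ l) (A ++ [q ^ 2 * z j] ++ B) (N + 1) z).2.2.2.1 (Equiv.swap 0 j)).1,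
      ← ht q l e Ψ Ψ' D (A ++ [q ^ 2 * z j]) B (List.ofFn z) _ hpm.symm
        (by rw [List.length_append, hA, hB, List.length_singleton]; exact hl)
        hGz] at h
    exact h
  have keyL : GG e Ψ' Ψ (A ++ [q * z 0]) B (List.ofFn z) * vd z =
        ((-q) ^ (l + 1) * κ) * pfq q (A ++ [q * z 0]) * pfq (q ^ 2) B *
          (wd q z * (∏ i, z i) * T q ((-q) ^ l) (A ++ [q * z 0] ++ B) z) := by
    have e1 : List.ofFn z = z 0 :: List.ofFn (Fin.tail z) := List.ofFn_succ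
    have e2 : (Fin.cons (z 0) (Fin.tail z) : Fin (N + 1) → ℂ) = z := Fin.cons_self_tail z
    have h := evL hx ht hmL hP hRP D hl hF A B (z 0) (Fin.tail z) hA hB (by rw [← e1]; exact hG')
    rw [e2, ← e1] at h
    exact h
  have keyA : ∀ b ∈ A, GG e Ψ' Ψ (A ++ [q * b]) B (List.ofFn z) * vd z =
        ((-q) ^ (l + 1) * κ) * pfq q (A ++ [q * b]) * pfq (q ^ 2) B *
          (wd q z * (∏ i, z i) * T q ((-q) ^ l) (A ++ [q * b] ++ B) z) := by
    intro b hb
    have h1 := van hx D B (List.ofFn z) A (by rw [hA, hB]; exact hl)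
      hGA b hb
    have h2 : pfq q (A ++ [q * b]) = 0 := by
      rw [pfq_append]
      have h4 : (A.map (fun a => q * (q * b) - q ^ 2 * a)).prod = 0 := by
        rw [List.prod_eq_zero_iff, List.mem_map]
        exact ⟨b, hb, by ring⟩
      rw [h4, mul_zero]
    rw [h1, h2]
    ring
  -- the polynomial
  obtain ⟨P1, hP1d, hP1⟩ := hdeg q l e Ψ Ψ' D A B (List.ofFn z) (by rw [hA, hB]; exact hl)
  obtain ⟨⟨PT, hPTd, -, hPT⟩, -⟩ := hP q ((-q) ^ l) (A ++ B) (N + 1) z
  rw [hA, List.length_ofFn] at hP1d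
  set K : ℂ := ((-q) ^ (l + 1) * κ) * pfq q A * pfq (q ^ 2) B * (wd q z * ∏ i, z i) with hK
  set P : Polynomial ℂ := P1 * Polynomial.C (vd z) - Polynomial.C K *
    ((A.map (fun a => Polynomial.C q * Polynomial.X - Polynomial.C (q ^ 2 * a))).prod * PT) with hPdef
  have hPd : P.natDegree ≤ p + (N + 1) := by
    refine (Polynomial.natDegree_sub_le _ _).trans (max_le ?_ ?_)
    · exact (Polynomial.natDegree_mul_C_le _ _).trans hP1d
    · refine (Polynomial.natDegree_C_mul_le _ _).trans (Polynomial.natDegree_mul_le.trans ?_)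
      have := deg_lin q A
      rw [hA] at this
      omega
  have hPe : ∀ x, P.eval x = GG e Ψ' Ψ (A ++ [x]) B (List.ofFn z) * vd z -
      ((-q) ^ (l + 1) * κ) * pfq q (A ++ [x]) * pfq (q ^ 2) B *
          (wd q z * (∏ i, z i) * T q ((-q) ^ l) (A ++ [x] ++ B) z) := by
    intro x
    have hT1 : T q ((-q) ^ l) (A ++ [x] ++ B) z = T q ((-q) ^ l) (x :: (A ++ B)) z := by
      refine ((hP q ((-q) ^ l) (A ++ [x] ++ B) (N + 1) z).2.2.1 _ ?_).1
      rw [List.append_assoc, List.singleton_append]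
      exact List.perm_middle
    rw [hPdef, Polynomial.eval_sub, Polynomial.eval_mul, Polynomial.eval_C, Polynomial.eval_mul,
      Polynomial.eval_C, Polynomial.eval_mul, hP1, hPT, eval_lin, pfq_append, hT1, hK]
    ring
  have hzero : P = 0 := by
    set L : List ℂ := A.map (fun a => q * a) ++ ((List.ofFn z).map (fun u => q ^ 2 * u) ++ [q * z 0])
      with hL
    have hinj : ∀ u v : ℂ, u ^ 3 ≠ v ^ 3 → ∀ i j : ℕ, q ^ i * u ≠ q ^ j * v := by
      intro u v huv i j h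
      apply huv
      have h4 : (q ^ i * u) ^ 3 = (q ^ j * v) ^ 3 := by rw [h]
      have h5 : (q ^ i * u) ^ 3 = (q ^ 3) ^ i * u ^ 3 := by ring
      have h6 : (q ^ j * v) ^ 3 = (q ^ 3) ^ j * v ^ 3 := by ring
      rw [h5, h6, h3, one_pow, one_pow, one_mul, one_mul] at h4
      exact h4
    have hz0 : z 0 ∈ List.ofFn z := List.mem_ofFn.2 ⟨0, rfl⟩
    have hnd : L.Nodup := by
      rw [hL, List.nodup_append, List.nodup_append]
      refine ⟨?_, ⟨?_, List.nodup_singleton _, ?_⟩, ?_⟩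
      · exact (List.Nodup.of_map _ hGA.2).map (mul_right_injective₀ hq0)
      · exact (List.Nodup.of_map _ hGz.2).map (mul_right_injective₀ (pow_ne_zero 2 hq0))
      · intro b hb c hc
        rw [List.mem_map] at hb
        obtain ⟨u, hu, rfl⟩ := hb
        rw [List.mem_singleton] at hc
        subst hc
        obtain ⟨j, rfl⟩ := List.mem_ofFn.1 hu
        by_cases hj : z j ^ 3 = z 0 ^ 3
        · have h0 := Gn_inj hGz j 0 hj
          subst h0
          intro h
          have h5 : q * z 0 * (q - 1) = 0 := by linear_combination h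
          rcases mul_eq_zero.1 h5 with h6 | h6
          · exact mul_ne_zero hq0 (hGz.1 _ hz0) h6
          · exact DetGAux.q_ne1 hq (sub_eq_zero.1 h6)
        · have := hinj _ _ hj 2 1
          rw [pow_one] at this
          exact this
      · intro b hb c hc
        rw [List.mem_map] at hb
        obtain ⟨u, hu, rfl⟩ := hb
        rw [List.mem_append, List.mem_map, List.mem_singleton] at hc
        rcases hc with ⟨v, hv, rfl⟩ | hc
        · have := hinj _ _ (hGAz u hu v hv) 1 2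
          rw [pow_one] at this
          exact this
        · subst hc
          have := hinj _ _ (hGAz u hu (z 0) hz0) 1 1
          rw [pow_one] at this
          exact this
    refine Polynomial.eq_zero_of_natDegree_lt_card_of_eval_eq_zero' P L.toFinset ?_ ?_
    · intro x hxL
      rw [List.mem_toFinset, hL, List.mem_append, List.mem_append, List.mem_map, List.mem_map,
        List.mem_singleton] at hxL
      rw [hPe x, sub_eq_zero]
      rcases hxL with ⟨b, hb, rfl⟩ | ⟨u, hu, rfl⟩ | rfl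
      · exact keyA b hb
      · obtain ⟨j, rfl⟩ := List.mem_ofFn.1 hu
        exact keyj j
      · exact keyL
    · rw [List.toFinset_card_of_nodup hnd, hL, List.length_append, List.length_append,
        List.length_map, List.length_map, hA, List.length_ofFn, List.length_singleton]
      omega
  have h := hPe a
  rw [hzero, Polynomial.eval_zero] at h
  exact sub_eq_zero.1 h.symm

/-! ### the base case -/

theorem kap_sq {q : ℂ} (hq : q ^ 2 + q + 1 = 0) (m : ℕ) : ‖kap q m‖ ^ 2 = 3 ^ (m / 2) := by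
  unfold kap
  split_ifs
  · rw [norm_pow, ← pow_mul, mul_comm, pow_mul, nrm1 hq]
  · rw [norm_pow, ← pow_mul, mul_comm, pow_mul, norm_sub_rev, nrm1 hq]

theorem base {q : ℂ} {l : ℕ} {e : ℕ → ℕ → Word → Word → ℂ} {Ψ Ψ' : List ℂ → VW}
    (hbs : S_bs) (D : Dat q l e Ψ Ψ') {p r : ℕ} (hl : p + r = l) :
    ∃ κ : ℂ, ‖κ‖ ^ 4 * 3 ^ (l - 1) = 1 ∧ Form q l e Ψ Ψ' κ p r 0 := by
  have hq := D.hq
  have hq' : (q ^ 2) ^ 2 + q ^ 2 + 1 = 0 := by linear_combination (q ^ 2 - q + 1) * hq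
  have hodd := D.hl
  have hk1 := kap_sq hq p
  have hk2 := kap_sq hq' r
  have h3p : ∀ n : ℕ, (3 : ℝ) ^ n ≠ 0 := fun n => pow_ne_zero _ (by norm_num)
  have hne : kap q p * kap (q ^ 2) r ≠ 0 := by
    refine mul_ne_zero ?_ ?_
    · intro h
      rw [h, norm_zero] at hk1
      exact h3p _ (by rw [← hk1]; norm_num)
    · intro h
      rw [h, norm_zero] at hk2
      exact h3p _ (by rw [← hk2]; norm_num)
  refine ⟨(kap q p * kap (q ^ 2) r)⁻¹, ?_, ?_⟩
  · rw [norm_inv, norm_mul, inv_pow]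
    have h1 : (‖kap q p‖ * ‖kap (q ^ 2) r‖) ^ 4 = 3 ^ (l - 1) := by
      calc (‖kap q p‖ * ‖kap (q ^ 2) r‖) ^ 4 =
          (‖kap q p‖ ^ 2) ^ 2 * (‖kap (q ^ 2) r‖ ^ 2) ^ 2 := by ring
        _ = 3 ^ (p / 2 * 2) * 3 ^ (r / 2 * 2) := by rw [hk1, hk2, pow_mul, pow_mul]
        _ = 3 ^ (l - 1) := by
          rw [← pow_add]
          congr 1
          obtain ⟨k, hk⟩ := hodd
          omega
    rw [h1]
    exact inv_mul_cancel₀ (h3p _)
  · intro A B z hA hB hG
    have e0 : List.ofFn z = [] := by simp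
    rw [e0, List.append_nil] at hG
    have h := hbs q l e Ψ Ψ' D A B (by rw [hA, hB]; exact hl)
      (Gn_sub (List.sublist_append_left _ _) hG) (Gn_sub (List.sublist_append_right _ _) hG)
    rw [hA, hB] at h
    have h1 : vd z = 1 := by simp [vd]
    have h2 : wd q z = 1 := by simp [wd]
    have h4 : T q ((-q) ^ l) (A ++ B) z = 1 := by
      unfold T
      exact Matrix.det_isEmpty
    rw [e0, h1, h2, h4, Finset.univ_eq_empty, Finset.prod_empty]
    rw [mul_one, mul_one, mul_one, mul_one, mul_assoc, ← h, mul_comm (GG e Ψ' Ψ A B []),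
      inv_mul_cancel_left₀ hne]

theorem main (hx : S_legx) (ht : S_thr) (hmR : S_mvR) (hmL : S_mvL) (hdeg : S_deg)
    (hsw : S_swap) (hbs : S_bs) (hP : S_TP) (hRP : S_RP) (hRM : S_RM) (N : ℕ) :
    ∀ (q : ℂ) (l : ℕ) (e : ℕ → ℕ → Word → Word → ℂ) (Ψ Ψ' : List ℂ → VW),
      Dat q l e Ψ Ψ' → ∀ p r : ℕ, p + r = l →
      ∃ κ : ℂ, ‖κ‖ ^ 4 * 3 ^ (l - 1) = 1 ∧ Form q l e Ψ Ψ' κ p r N := by
  induction N with
  | zero => exact fun q l e Ψ Ψ' D p r hl => base hbs D hl
  | succ N ih =>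
    have pos : ∀ (q : ℂ) (l : ℕ) (e : ℕ → ℕ → Word → Word → ℂ) (Ψ Ψ' : List ℂ → VW),
        Dat q l e Ψ Ψ' → ∀ p r : ℕ, p + 1 + r = l →
        ∃ κ : ℂ, ‖κ‖ ^ 4 * 3 ^ (l - 1) = 1 ∧ Form q l e Ψ Ψ' κ (p + 1) r (N + 1) := by
      intro q l e Ψ Ψ' D p r hl
      obtain ⟨κ, hκ, hF⟩ := ih q l e Ψ Ψ' D p (r + 1) (by omega)
      refine ⟨(-q) ^ (l + 1) * κ, ?_, step hx ht hmR hmL hdeg hP hRP hRM D hl hF⟩
      rw [norm_mul, norm_pow, norm_neg, nrm D.hq, one_pow, one_mul]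
      exact hκ
    intro q l e Ψ Ψ' D p r hl
    rcases p with _ | p
    · have hq := D.hq
      have h3 : q ^ 3 = 1 := q3 hq
      have h4 : (q ^ 2) ^ 2 = q := by linear_combination q * h3
      have D' : Dat (q ^ 2) l e Ψ' Ψ :=
        { hq := by rw [h4]; linear_combination hq
          hl := D.hl
          he := D.he
          h := D.h'
          h' := by rw [h4]; exact D.h }
      obtain ⟨r', rfl⟩ : ∃ r', r = r' + 1 := ⟨r - 1, by obtain ⟨k, hk⟩ := D.hl; omega⟩
      obtain ⟨κ, hκ, hF⟩ := pos (q ^ 2) l e Ψ' Ψ D' r' 0 (by omega)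
      set w := (-q) ^ l with hw
      have hw0 : w ≠ 0 := pow_ne_zero _ (neg_ne_zero.2 (q_ne hq))
      have hwn : ‖w‖ = 1 := by rw [hw, norm_pow, norm_neg, nrm hq, one_pow]
      have hw2 : (-q ^ 2) ^ l = w⁻¹ := by
        have h5 : (-q ^ 2) ^ l * w = 1 := by
          rw [hw, ← mul_pow]
          have : -q ^ 2 * -q = 1 := by linear_combination h3
          rw [this, one_pow]
        exact eq_inv_of_mul_eq_one_left h5
      refine ⟨κ * (-w⁻¹) ^ (N + 1), ?_, ?_⟩
      · rw [norm_mul, norm_pow, norm_neg, norm_inv, hwn, inv_one, one_pow, mul_one]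
        exact hκ
      · intro A B z hA hB hG
        have hA' : A = [] := List.length_eq_zero_iff.1 hA
        subst hA'
        have h5 := hF B [] z hB rfl (by
          rw [List.append_nil]
          rw [List.nil_append] at hG
          exact hG)
        rw [hsw q l e Ψ Ψ' D [] B (List.ofFn z) (by rw [List.length_nil, hB]; exact hl), h5, hw2,
          List.append_nil, List.nil_append, (hP q w B (N + 1) z).2.2.2.2.1 hq hw0, wd_sq hq]
        simp only [pfq]
        ring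
    · exact pos q l e Ψ Ψ' D p r hl

end TTA

/-- **The exact formula.** -/
theorem t_TA (hx : S_legx) (ht : S_thr) (hmR : S_mvR) (hmL : S_mvL) (hdeg : S_deg)
    (hsw : S_swap) (hbs : S_bs) (hP : S_TP) (hRP : S_RP) (hRM : S_RM) : S_TA :=
  fun q l e Ψ Ψ' D p r N hl =>
    TTA.main hx ht hmR hmL hdeg hsw hbs hP hRP hRM N q l e Ψ Ψ' D p r hl

end Pool.Agent.W801.OL
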