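import Pool.Agent.W801.OL.Stm

/-! Project OL: alternating rows decide the leg event. -/

set_option autoImplicit false

namespace Pool.Agent.W801.OL
open Pool.Agent.H863R2.Cyl
open Pool.Agent.H988R2.Perc (Word PD)
open Pool.Agent.H160R2.ML (Good ee Cn Lg pt GG prE pfq Gn T lg Dl RR)
open Pool.Agent.W808.HB (bwm kap HL crow Alt coinsH Lw)

namespace TY1

/-- a boundary point of a half -/
def lift (x : ℤ × Bool) : (ℤ × ℕ) × Bool := ((x.1, 0), x.2)

theorem lw_rw {N : ℕ} {w : Word} (a b : ℤ) :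
    Relation.EqvGen (Lw N N w) a b ↔ Relation.EqvGen (Rw w) a b := by
  constructor
  · intro h
    refine Relation.EqvGen.mono ?_ _ _ h
    rintro x y (⟨x, y, h⟩ | ⟨s, i, h⟩)
    · exact h
    · omega
  · intro h
    exact Relation.EqvGen.mono (fun x y h => Lw.rw x y h) _ _ h

variable {p r M : ℕ} {ω ω' : ℤ × ℕ → Bool} {w w' : Word}

/-- the half of a side -/
def hf (p r M : ℕ) (ω ω' : ℤ × ℕ → Bool) : Bool → ℤ × ℕ → ℤ × ℕ → Prop
  | false => HL (p + M) (p + M) ω
  | true => HL (r + M) (r + M) ω'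

theorem hf_lk (β : Bool) {x y : ℤ × ℕ} (h : Relation.EqvGen (hf p r M ω ω' β) x y) :
    Relation.EqvGen (Lk2 p r M ω ω') (x, β) (y, β) := by
  induction h with
  | rel x y h =>
    cases β
    · exact Relation.EqvGen.rel _ _ (Lk2.low x y h)
    · exact Relation.EqvGen.rel _ _ (Lk2.upp x y h)
  | refl x => exact Relation.EqvGen.refl _
  | symm x y _ ih => exact Relation.EqvGen.symm _ _ ih
  | trans x y z _ _ ih1 ih2 => exact Relation.EqvGen.trans _ _ _ ih1 ih2

theorem rw_cn (β : Bool) {a b : ℤ} (h : Relation.EqvGen (Rw (bif β then w' else w)) a b) :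
    Cn p r w' w (a, β) (b, β) := by
  induction h with
  | rel x y h =>
    cases β
    · exact Relation.EqvGen.rel _ _ (Lg.low x y h)
    · exact Relation.EqvGen.rel _ _ (Lg.upp x y h)
  | refl x => exact Relation.EqvGen.refl _
  | symm x y _ ih => exact Relation.EqvGen.symm _ _ ih
  | trans x y z _ _ ih1 ih2 => exact Relation.EqvGen.trans _ _ _ ih1 ih2

theorem cn_lk (hw : w.length = p + M) (hw' : w'.length = r + M)
    (hX : ∀ (β : Bool) (a b : ℤ), Relation.EqvGen (hf p r M ω ω' β) (a, 0) (b, 0) ↔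
      Relation.EqvGen (Rw (bif β then w' else w)) a b) {x y : ℤ × Bool} (h : Cn p r w' w x y) :
    Relation.EqvGen (Lk2 p r M ω ω') (lift x) (lift y) := by
  unfold Cn at h
  induction h with
  | rel x y h =>
    rcases h with ⟨a, b, h⟩ | ⟨a, b, h⟩ | ⟨s, i, h⟩
    · exact hf_lk false ((hX false a b).2 (Relation.EqvGen.rel _ _ h))
    · exact hf_lk true ((hX true a b).2 (Relation.EqvGen.rel _ _ h))
    · have hi : i ≤ M := by omega
      have := Relation.EqvGen.rel _ _ (Lk2.glue (p := p) (r := r) (ω := ω) (ω' := ω') s i hi)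
      rw [hw, hw']
      exact this
  | refl x => exact Relation.EqvGen.refl _
  | symm x y _ ih => exact Relation.EqvGen.symm _ _ ih
  | trans x y z _ _ ih1 ih2 => exact Relation.EqvGen.trans _ _ _ ih1 ih2

theorem lk_cn (hw : w.length = p + M) (hw' : w'.length = r + M)
    (hX : ∀ (β : Bool) (a b : ℤ), Relation.EqvGen (hf p r M ω ω' β) (a, 0) (b, 0) ↔
      Relation.EqvGen (Rw (bif β then w' else w)) a b) {x y : ℤ × Bool}
    (h : Relation.EqvGen (Lk2 p r M ω ω') (lift x) (lift y)) : Cn p r w' w x y := by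
  have key : ∀ {u v : (ℤ × ℕ) × Bool}, Relation.EqvGen (Lk2 p r M ω ω') u v →
      ((∃ c : ℤ, Relation.EqvGen (hf p r M ω ω' u.2) (c, 0) u.1 ∧ Cn p r w' w x (c, u.2)) ↔
       (∃ c : ℤ, Relation.EqvGen (hf p r M ω ω' v.2) (c, 0) v.1 ∧ Cn p r w' w x (c, v.2))) := by
    intro u v h
    induction h with
    | rel u v h =>
      rcases h with ⟨a, b, h⟩ | ⟨a, b, h⟩ | ⟨s, i, h⟩
      · have h1 : Relation.EqvGen (hf p r M ω ω' false) a b := Relation.EqvGen.rel _ _ h
        constructor
        · rintro ⟨c, hc, hc'⟩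
          exact ⟨c, Relation.EqvGen.trans _ _ _ hc h1, hc'⟩
        · rintro ⟨c, hc, hc'⟩
          exact ⟨c, Relation.EqvGen.trans _ _ _ hc (Relation.EqvGen.symm _ _ h1), hc'⟩
      · have h1 : Relation.EqvGen (hf p r M ω ω' true) a b := Relation.EqvGen.rel _ _ h
        constructor
        · rintro ⟨c, hc, hc'⟩
          exact ⟨c, Relation.EqvGen.trans _ _ _ hc h1, hc'⟩
        · rintro ⟨c, hc, hc'⟩
          exact ⟨c, Relation.EqvGen.trans _ _ _ hc (Relation.EqvGen.symm _ _ h1), hc'⟩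
      · have hg : Cn p r w' w (s * (p + M : ℕ) + p + i, false) (s * (r + M : ℕ) + r + i, true) := by
          have := Relation.EqvGen.rel _ _ (Lg.glue (p := p) (r := r) (w' := w') (w := w) s i
            (by omega))
          rw [hw, hw'] at this
          exact this
        constructor
        · rintro ⟨c, hc, hc'⟩
          refine ⟨_, Relation.EqvGen.refl _, ?_⟩
          have h2 := rw_cn (p := p) (r := r) (w' := w') (w := w) false ((hX false _ _).1 hc)
          exact Relation.EqvGen.trans _ _ _ hc' (Relation.EqvGen.trans _ _ _ h2 hg)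
        · rintro ⟨c, hc, hc'⟩
          refine ⟨_, Relation.EqvGen.refl _, ?_⟩
          have h2 := rw_cn (p := p) (r := r) (w' := w') (w := w) true ((hX true _ _).1 hc)
          exact Relation.EqvGen.trans _ _ _ hc'
            (Relation.EqvGen.trans _ _ _ h2 (Relation.EqvGen.symm _ _ hg))
    | refl u => exact Iff.rfl
    | symm u v _ ih => exact ih.symm
    | trans u v z _ _ ih1 ih2 => exact ih1.trans ih2
  obtain ⟨c, hc, hc'⟩ := (key h).1 ⟨x.1, Relation.EqvGen.refl _, Relation.EqvGen.refl _⟩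
  have h2 := rw_cn (p := p) (r := r) (w' := w') (w := w) y.2 ((hX y.2 _ _).1 hc)
  exact Relation.EqvGen.trans _ _ _ hc' h2

theorem sec_pt (hw : w.length = p + M) (hw' : w'.length = r + M) (s : ℤ) (c : ℕ) :
    sec2 p r M s c = lift (pt p r w' w s c) := by
  unfold sec2 pt lift
  rw [hw, hw']
  split_ifs <;> rfl

end TY1

open TY1 in
theorem t_Y1 : Pool.Agent.W808.HB.S_X3 → S_Y1 := by
  intro hX3 p r M m n K K' t t' hm hn hm1 hn1 htK htK' ω ω' hA hA' σ τ
  have hw : (wdw m K ω σ).length = p + M := by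
    rw [← hm]; exact (rows m (crow (m + 1) K ω) K σ).2.1
  have hw' : (wdw n K' ω' τ).length = r + M := by
    rw [← hn]; exact (rows n (crow (n + 1) K' ω') K' τ).2.1
  have hX : ∀ (β : Bool) (a b : ℤ), Relation.EqvGen (hf p r M ω ω' β) (a, 0) (b, 0) ↔
      Relation.EqvGen (Rw (bif β then (wdw n K' ω' τ) else (wdw m K ω σ))) a b := by
    intro β a b
    cases β
    · have h1 := hX3 m K (m + 1) t hm1 htK ω hA σ a b
      rw [lw_rw] at h1
      have h2 : hf p r M ω ω' false = HL (m + 1) (m + 1) ω := by rw [hm]; rfl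
      rw [h2]
      exact h1
    · have h1 := hX3 n K' (n + 1) t' hn1 htK' ω' hA' τ a b
      rw [lw_rw] at h1
      have h2 : hf p r M ω ω' true = HL (n + 1) (n + 1) ω' := by rw [hn]; rfl
      rw [h2]
      exact h1
  have hiff : ∀ x y : ℤ × Bool, Relation.EqvGen (Lk2 p r M ω ω') (lift x) (lift y) ↔
      Cn p r (wdw n K' ω' τ) (wdw m K ω σ) x y :=
    fun x y => ⟨lk_cn hw hw' hX, cn_lk hw hw' hX⟩
  unfold LegEv2 Pool.Agent.H160R2.ML.Good
  simp only [sec_pt hw hw', hiff]

end Pool.Agent.W801.OL
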