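import Pool.Agent.W801.OL.Stm
import Pool.Agent.W808.HB.T_X5

/-!
# OL, task Y2: averaging over the rows of the two halves
-/

set_option autoImplicit false

namespace Pool.Agent.W801.OL
open Pool.Agent.H863R2.Cyl
open Pool.Agent.H988R2.Perc (Word PD)
open Pool.Agent.H160R2.ML (Good ee Cn Lg pt GG prE pfq Gn T lg Dl RR)
open Pool.Agent.W808.HB (bwm kap HL crow Alt coinsH)
open H974 H906.Cyl
open MeasureTheory

namespace TY2

open Pool.Agent.W808.HB.TX5 (site site_inj Rws AB val AB_iff split)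

instance prC : IsProbabilityMeasure coinsH := by
  unfold coinsH
  infer_instance

theorem mcell (n M : ℕ) (x : Rws n M) : MeasurableSet {ω : ℤ × ℕ → Bool | AB n M ω = x} := by
  have : {ω : ℤ × ℕ → Bool | AB n M ω = x} =
      ⋂ y, (fun ω : ℤ × ℕ → Bool => ω (site (n + 1) M y)) ⁻¹' {val n M x y} := by
    ext ω
    simp only [Set.mem_iInter, Set.mem_preimage, Set.mem_singleton_iff]
    exact AB_iff n M x ω
  rw [this]
  exact MeasurableSet.iInter fun y => measurable_pi_apply _ (measurableSet_singleton _)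

theorem pcell (n M : ℕ) (x : Rws n M) : coinsH.real {ω : ℤ × ℕ → Bool | AB n M ω = x} =
      (1 / 2 : ℝ) ^ (M * (n + 1)) := by
  classical
  have h := split n M (fun a => a = x)
  rw [h]
  simp

open Classical in
theorem split2 (m n K : ℕ) (P : Rws m K → Rws n K → Prop) :
    (coinsH.prod coinsH).real {ω : (ℤ × ℕ → Bool) × (ℤ × ℕ → Bool) |
        P (AB m K ω.1) (AB n K ω.2)} =
      ∑ a, ∑ b, (if P a b then (1 / 2 : ℝ) ^ (K * (m + 1)) * (1 / 2 : ℝ) ^ (K * (n + 1)) else 0) := by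
  have h1 : {ω : (ℤ × ℕ → Bool) × (ℤ × ℕ → Bool) | P (AB m K ω.1) (AB n K ω.2)} =
      ⋃ x ∈ (Finset.univ.filter fun x : Rws m K × Rws n K => P x.1 x.2),
        {ω : ℤ × ℕ → Bool | AB m K ω = x.1} ×ˢ {ω : ℤ × ℕ → Bool | AB n K ω = x.2} := by
    ext ω
    simp only [Set.mem_setOf_eq, Set.mem_iUnion, Finset.mem_filter, Finset.mem_univ, true_and,
      exists_prop, Set.mem_prod]
    constructor
    · intro h
      exact ⟨(_, _), h, rfl, rfl⟩
    · rintro ⟨x, hx, h, h'⟩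
      rw [h, h']
      exact hx
  rw [h1, measureReal_biUnion_finset]
  · have h2 : ∀ x : Rws m K × Rws n K, (coinsH.prod coinsH).real
        ({ω : ℤ × ℕ → Bool | AB m K ω = x.1} ×ˢ {ω : ℤ × ℕ → Bool | AB n K ω = x.2}) =
        (1 / 2 : ℝ) ^ (K * (m + 1)) * (1 / 2 : ℝ) ^ (K * (n + 1)) := by
      intro x
      rw [measureReal_prod_prod, pcell, pcell]
    rw [Finset.sum_congr rfl fun x _ => h2 x, Finset.sum_filter, Fintype.sum_prod_type]
  · intro x _ y _ hxy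
    rw [Function.onFun, Set.disjoint_left]
    rintro ω ⟨h3, h3'⟩ ⟨h4, h4'⟩
    exact hxy (Prod.ext (h3.symm.trans h4) (h3'.symm.trans h4'))
  · intro x _
    exact (mcell m K x.1).prod (mcell n K x.2)

theorem wdw_eq (n K : ℕ) (ω : ℤ × ℕ → Bool) (σ : Wd (n + 1)) :
    wdw n K ω σ = (rows n (ext (AB n K ω)) K σ).1 := by
  unfold wdw
  rw [rows_congr (c' := ext (AB n K ω))]
  intro t ht
  unfold ext
  rw [dif_pos ht]
  rfl

end TY2

open TY2
open Pool.Agent.W808.HB.TX5 (site site_inj Rws AB val AB_iff split)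

theorem t_Y2 : S_Y2 := by
  classical
  intro p r m n K μ ν hμ hν
  obtain ⟨A, hA⟩ : ∃ A : ℝ, A = (1 / 2 : ℝ) ^ (K * (m + 1)) := ⟨_, rfl⟩
  obtain ⟨B, hB⟩ : ∃ B : ℝ, B = (1 / 2 : ℝ) ^ (K * (n + 1)) := ⟨_, rfl⟩
  obtain ⟨g, hg⟩ : ∃ g : Wd (m + 1) → Wd (n + 1) → ℝ,
      g = fun σ τ => if Good p r τ.1 σ.1 then (1 : ℝ) else 0 := ⟨_, rfl⟩
  have h1 : ∀ (σ : Wd (m + 1)) (τ : Wd (n + 1)), (coinsH.prod coinsH).real
      {ω : (ℤ × ℕ → Bool) × (ℤ × ℕ → Bool) | Good p r (wdw n K ω.2 τ) (wdw m K ω.1 σ)} =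
      ∑ a : Rws m K, ∑ b : Rws n K, A * B * g (rows m (ext a) K σ) (rows n (ext b) K τ) := by
    intro σ τ
    have h2 := split2 m n K (fun a b => Good p r (rows n (ext b) K τ).1 (rows m (ext a) K σ).1)
    have h3 : {ω : (ℤ × ℕ → Bool) × (ℤ × ℕ → Bool) |
        Good p r (wdw n K ω.2 τ) (wdw m K ω.1 σ)} =
        {ω : (ℤ × ℕ → Bool) × (ℤ × ℕ → Bool) |
          Good p r (rows n (ext (AB n K ω.2)) K τ).1 (rows m (ext (AB m K ω.1)) K σ).1} := by
      ext ω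
      simp only [Set.mem_setOf_eq, wdw_eq]
    rw [h3, h2, ← hA, ← hB, hg]
    refine Finset.sum_congr rfl fun a _ => Finset.sum_congr rfl fun b _ => ?_
    simp only []
    split_ifs <;> simp
  have h2 : ∀ a : Rws m K, ∀ σ : Wd (m + 1),
      ∑ b : Rws n K, ∑ τ, ν τ * g (rows m (ext a) K σ) (rows n (ext b) K τ) =
      (2 ^ (n + 1)) ^ K * ∑ τ, ν τ * g (rows m (ext a) K σ) τ := by
    intro a σ
    exact rows_stat hν K (fun τ => g (rows m (ext a) K σ) τ)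
  have h3 : ∑ a : Rws m K, ∑ σ, μ σ * (∑ τ, ν τ * g (rows m (ext a) K σ) τ) =
      (2 ^ (m + 1)) ^ K * ∑ σ, μ σ * (∑ τ, ν τ * g σ τ) :=
    rows_stat hμ K (fun σ => ∑ τ, ν τ * g σ τ)
  have h4 : ∑ σ, ∑ τ, μ σ * ν τ * (coinsH.prod coinsH).real
      {ω : (ℤ × ℕ → Bool) × (ℤ × ℕ → Bool) | Good p r (wdw n K ω.2 τ) (wdw m K ω.1 σ)} =
      A * B * ∑ a : Rws m K, ∑ σ, μ σ *
        (∑ b : Rws n K, ∑ τ, ν τ * g (rows m (ext a) K σ) (rows n (ext b) K τ)) := by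
    simp only [h1, Finset.mul_sum]
    rw [Finset.sum_congr rfl fun σ _ => Finset.sum_comm, Finset.sum_comm]
    refine Finset.sum_congr rfl fun a _ => ?_
    refine Finset.sum_congr rfl fun σ _ => ?_
    rw [Finset.sum_comm]
    refine Finset.sum_congr rfl fun b _ => Finset.sum_congr rfl fun τ _ => ?_
    ring
  have h5 : ∑ a : Rws m K, ∑ σ, μ σ *
        (∑ b : Rws n K, ∑ τ, ν τ * g (rows m (ext a) K σ) (rows n (ext b) K τ)) =
      (2 ^ (n + 1)) ^ K * ∑ a : Rws m K, ∑ σ, μ σ * (∑ τ, ν τ * g (rows m (ext a) K σ) τ) := by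
    rw [Finset.mul_sum]
    refine Finset.sum_congr rfl fun a _ => ?_
    rw [Finset.mul_sum]
    refine Finset.sum_congr rfl fun σ _ => ?_
    rw [h2]
    ring
  rw [h4, h5, h3]
  have hA' : A * (2 ^ (m + 1)) ^ K = 1 := by
    rw [hA, ← pow_mul, mul_comm K (m + 1), ← mul_pow]
    norm_num
  have hB' : B * (2 ^ (n + 1)) ^ K = 1 := by
    rw [hB, ← pow_mul, mul_comm K (n + 1), ← mul_pow]
    norm_num
  calc A * B * ((2 ^ (n + 1)) ^ K * ((2 ^ (m + 1)) ^ K * ∑ σ, μ σ * (∑ τ, ν τ * g σ τ)))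
      = (A * (2 ^ (m + 1)) ^ K) * (B * (2 ^ (n + 1)) ^ K) * ∑ σ, μ σ * (∑ τ, ν τ * g σ τ) := by
        ring
    _ = PP p r m n μ ν := by
      rw [hA', hB', one_mul, one_mul]
      unfold PP
      refine Finset.sum_congr rfl fun σ _ => ?_
      rw [Finset.mul_sum]
      refine Finset.sum_congr rfl fun τ _ => ?_
      rw [hg]
      simp only []
      split_ifs <;> simp

end Pool.Agent.W801.OL
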