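import Pool.Agent.W801.OL.Stm

/-!
# The probability of the leg event (task OL-Y3, helper193)
-/

set_option autoImplicit false

namespace Pool.Agent.W801.OL
open Pool.Agent.H863R2.Cyl
open Pool.Agent.H988R2.Perc (Word PD)
open Pool.Agent.H160R2.ML (Good ee Cn Lg pt GG prE pfq Gn T lg Dl RR)
open Pool.Agent.W808.HB (bwm kap HL crow Alt coinsH)
open MeasureTheory

namespace TY3

theorem fst_real {α β : Type*} [MeasurableSpace α] [MeasurableSpace β] (μ : Measure α)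
    (ν : Measure β) [IsProbabilityMeasure μ] [IsProbabilityMeasure ν] (P : α → Prop) :
    (μ.prod ν).real {ω | P ω.1} = μ.real {a | P a} := by
  have e : {ω : α × β | P ω.1} = {a | P a} ×ˢ (Set.univ : Set β) := by
    ext ω
    simp
  rw [e, measureReal_def, Measure.prod_prod, measure_univ, mul_one]
  rfl

theorem snd_real {α β : Type*} [MeasurableSpace α] [MeasurableSpace β] (μ : Measure α)
    (ν : Measure β) [IsProbabilityMeasure μ] [IsProbabilityMeasure ν] (P : β → Prop) :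
    (μ.prod ν).real {ω | P ω.2} = ν.real {a | P a} := by
  have e : {ω : α × β | P ω.2} = (Set.univ : Set α) ×ˢ {a | P a} := by
    ext ω
    simp
  rw [e, measureReal_def, Measure.prod_prod, measure_univ, one_mul]
  rfl

end TY3

open TY3

theorem t_Y3 : S_Y1 → S_Y2 → Pool.Agent.W808.HB.S_X6 → S_Y3 := by
  intro h1 h2 h6 p r M m n hm hn hm1 hn1 μ ν hμ0 hμ1 hν0 hν1 hμs hνs
  have hprob : IsProbabilityMeasure coinsH := by
    unfold coinsH
    infer_instance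
  refine eq_of_forall_dist_le ?_
  intro ε hε
  obtain ⟨K1, hK1⟩ := h6 m (ε / 2) (half_pos hε)
  obtain ⟨K2, hK2⟩ := h6 n (ε / 2) (half_pos hε)
  set K := max K1 K2 with hK
  rw [← h2 p r m n K μ ν hμs hνs, Real.dist_eq]
  set ρ := coinsH.prod coinsH with hρ
  set P := ρ.real {ω : (ℤ × ℕ → Bool) × (ℤ × ℕ → Bool) | LegEv2 p r M ω.1 ω.2} with hPd
  have hb1 : ρ.real {ω : (ℤ × ℕ → Bool) × (ℤ × ℕ → Bool) | ¬ ∃ t < K, Alt (m + 1) ω.1 t}
      ≤ ε / 2 := by
    rw [hρ, fst_real coinsH coinsH (fun ω => ¬ ∃ t < K, Alt (m + 1) ω t)]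
    refine (measureReal_mono (fun ω hω => ?_)).trans hK1
    rintro ⟨t, ht, hA⟩
    exact hω ⟨t, lt_of_lt_of_le ht (le_max_left _ _), hA⟩
  have hb2 : ρ.real {ω : (ℤ × ℕ → Bool) × (ℤ × ℕ → Bool) | ¬ ∃ t < K, Alt (n + 1) ω.2 t}
      ≤ ε / 2 := by
    rw [hρ, snd_real coinsH coinsH (fun ω => ¬ ∃ t < K, Alt (n + 1) ω t)]
    refine (measureReal_mono (fun ω hω => ?_)).trans hK2
    rintro ⟨t, ht, hA⟩
    exact hω ⟨t, lt_of_lt_of_le ht (le_max_right _ _), hA⟩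
  set B : Set ((ℤ × ℕ → Bool) × (ℤ × ℕ → Bool)) :=
    {ω | ¬ ∃ t < K, Alt (m + 1) ω.1 t} ∪ {ω | ¬ ∃ t < K, Alt (n + 1) ω.2 t} with hB
  have hb : ρ.real B ≤ ε := by
    have := measureReal_union_le (μ := ρ)
      {ω : (ℤ × ℕ → Bool) × (ℤ × ℕ → Bool) | ¬ ∃ t < K, Alt (m + 1) ω.1 t}
      {ω : (ℤ × ℕ → Bool) × (ℤ × ℕ → Bool) | ¬ ∃ t < K, Alt (n + 1) ω.2 t}
    rw [hB]
    linarith
  have key : ∀ ω : (ℤ × ℕ → Bool) × (ℤ × ℕ → Bool), ω ∉ B → ∀ (σ : Wd (m + 1))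
      (τ : Wd (n + 1)), (LegEv2 p r M ω.1 ω.2 ↔
        Good p r (wdw n K ω.2 τ) (wdw m K ω.1 σ)) := by
    intro ω hω σ τ
    rw [hB, Set.mem_union, not_or] at hω
    obtain ⟨t, ht, hA⟩ := not_not.1 hω.1
    obtain ⟨t', ht', hA'⟩ := not_not.1 hω.2
    exact h1 p r M m n K K t t' hm hn hm1 hn1 ht ht' ω.1 ω.2 hA hA' σ τ
  have hd : ∀ (σ : Wd (m + 1)) (τ : Wd (n + 1)),
      |P - ρ.real {ω | Good p r (wdw n K ω.2 τ) (wdw m K ω.1 σ)}| ≤ ε := by
    intro σ τ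
    have s1 : {ω : (ℤ × ℕ → Bool) × (ℤ × ℕ → Bool) | LegEv2 p r M ω.1 ω.2} ⊆
        {ω | Good p r (wdw n K ω.2 τ) (wdw m K ω.1 σ)} ∪ B := by
      intro ω hω
      by_cases hb : ω ∈ B
      · exact Or.inr hb
      · exact Or.inl ((key ω hb σ τ).1 hω)
    have s2 : {ω : (ℤ × ℕ → Bool) × (ℤ × ℕ → Bool) |
        Good p r (wdw n K ω.2 τ) (wdw m K ω.1 σ)} ⊆ {ω | LegEv2 p r M ω.1 ω.2} ∪ B := by
      intro ω hω
      by_cases hb : ω ∈ B
      · exact Or.inr hb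
      · exact Or.inl ((key ω hb σ τ).2 hω)
    have t1 := (measureReal_mono (μ := ρ) s1).trans (measureReal_union_le _ _)
    have t2 := (measureReal_mono (μ := ρ) s2).trans (measureReal_union_le _ _)
    rw [abs_le]
    constructor <;> linarith
  have h3 : P = ∑ σ, ∑ τ, μ σ * ν τ * P := by
    have : ∑ σ, ∑ τ, μ σ * ν τ * P = (∑ σ, μ σ) * ((∑ τ, ν τ) * P) := by
      rw [Finset.sum_mul]
      refine Finset.sum_congr rfl fun σ _ => ?_
      rw [Finset.sum_mul, Finset.mul_sum]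
      exact Finset.sum_congr rfl fun τ _ => by ring
    rw [this, hμ1, hν1, one_mul, one_mul]
  calc |P - ∑ σ, ∑ τ, μ σ * ν τ * ρ.real {ω | Good p r (wdw n K ω.2 τ) (wdw m K ω.1 σ)}|
      = |∑ σ, ∑ τ, μ σ * ν τ *
          (P - ρ.real {ω | Good p r (wdw n K ω.2 τ) (wdw m K ω.1 σ)})| := by
        congr 1
        conv_lhs => rw [h3]
        rw [← Finset.sum_sub_distrib]
        refine Finset.sum_congr rfl fun σ _ => ?_
        rw [← Finset.sum_sub_distrib]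
        refine Finset.sum_congr rfl fun τ _ => ?_
        ring
    _ ≤ ∑ σ, ∑ τ, μ σ * ν τ * ε := by
        refine (Finset.abs_sum_le_sum_abs _ _).trans ?_
        refine Finset.sum_le_sum fun σ _ => ?_
        refine (Finset.abs_sum_le_sum_abs _ _).trans ?_
        refine Finset.sum_le_sum fun τ _ => ?_
        rw [abs_mul, abs_of_nonneg (mul_nonneg (hμ0 σ) (hν0 τ))]
        exact mul_le_mul_of_nonneg_left (hd σ τ) (mul_nonneg (hμ0 σ) (hν0 τ))
    _ = ε := by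
        have : ∑ σ, ∑ τ, μ σ * ν τ * ε = (∑ σ, μ σ) * ((∑ τ, ν τ) * ε) := by
          rw [Finset.sum_mul]
          refine Finset.sum_congr rfl fun σ _ => ?_
          rw [Finset.sum_mul, Finset.mul_sum]
          exact Finset.sum_congr rfl fun τ _ => by ring
        rw [this, hμ1, hν1, one_mul, one_mul]

end Pool.Agent.W801.OL
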