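import Pool.Agent.W801.OL.Stm
import Pool.Agent.H863R2.Cyl.Markov

/-! Final statement: exact value and exponents. -/

set_option autoImplicit false

namespace Pool.Agent.W801.OL
open Pool.Agent.H863R2.Cyl
open Pool.Agent.H160R2.ML (RR)
open Pool.Agent.W808.HB (coinsH)
open MeasureTheory

theorem t_Y4 : S_PB → S_FA → S_Y3 → S_Y4 := by
  intro hPB hFA hY3
  have key : ∀ p r M : ℕ, Odd (p + r) → 2 ≤ p + M → 2 ≤ r + M →
      (coinsH.prod coinsH).real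
        {ω : (ℤ × ℕ → Bool) × (ℤ × ℕ → Bool) | LegEv2 p r M ω.1 ω.2} ^ 2
      * (RR (p + M) 0 (Real.pi / 3) * RR (r + M) 0 (Real.pi / 3))
      = Real.sqrt 3 * RR M (p + r) 0 ^ 2 := by
    intro p r M hodd hp hr
    obtain ⟨m, hm⟩ : ∃ m, m + 1 = p + M := ⟨p + M - 1, by omega⟩
    obtain ⟨n, hn⟩ : ∃ n, n + 1 = r + M := ⟨r + M - 1, by omega⟩
    obtain ⟨μ, hμ0, hμ1, hμst, -, -⟩ := markov_exists m
    obtain ⟨ν, hν0, hν1, hνst, -, -⟩ := markov_exists n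
    rw [hY3 p r M m n hm hn (by omega) (by omega) μ ν hμ0 hμ1 hν0 hν1 hμst hνst]
    exact hPB p r M m n hodd hm hn μ ν hμ0 hμ1 hν0 hν1 hμst hνst
  refine ⟨key, ?_⟩
  intro p r hodd
  obtain ⟨c, C, hc, hC, h⟩ := hFA p r
  refine ⟨c, C, hc, hC, ?_⟩
  intro M hM
  exact h M _ (by omega) measureReal_nonneg (key p r M hodd (by omega) (by omega))

end Pool.Agent.W801.OL
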