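import Pool.Agent.W801.OL.Stm
import Pool.Agent.H160R2.ML.T_base
import Pool.Agent.H160R2.ML.T_symm

/-!
# Task base (odd number of legs): no through strand
-/

set_option autoImplicit false

namespace Pool.Agent.W801.OL
open Pool.Agent.H863R2.Cyl
open Pool.Agent.H988R2.Perc (Word PD)
open Pool.Agent.H160R2.ML (Good ee Cn Lg pt bw)
open Pool.Agent.W808.HB (bwm)

namespace OTbase
open Pool.Agent.H863R2.Cyl.Sem1Aux
open Pool.Agent.H160R2.ML.Tbase (ix dl ix_eq dl_eq dec bw_len inv_Rw dl_pk ix_pk lowA lowB conn)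

theorem bwm_even (k : ℕ) : bwm (k + k) = bw (k + k) := by
  unfold bwm bw
  have e : (k + k) - (k + k) / 2 = (k + k) / 2 := by omega
  rw [e]

/-- the index of the nearest peak, circumference `2 h + 1` -/
def ixo (h : ℕ) (x : ℤ) : ℤ := (x + h) / (h + h + 1)

/-- the distance to the nearest peak -/
def dlo (h : ℕ) (x : ℤ) : ℤ := |(x + h) % (h + h + 1) - h|

theorem ixo_eq {h : ℕ} (s t : ℤ) (h1 : -(h : ℤ) ≤ t) (h2 : t ≤ h) :
    ixo h (s * (h + h + 1) + t) = s := by
  unfold ixo
  have e : s * ((h : ℤ) + h + 1) + t + h = (t + h) + s * (h + h + 1) := by ring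
  rw [e, Int.add_mul_ediv_right _ _ (by omega), Int.ediv_eq_zero_of_lt (by omega) (by omega),
    zero_add]

theorem dlo_eq {h : ℕ} (s t : ℤ) (h1 : -(h : ℤ) ≤ t) (h2 : t ≤ h) :
    dlo h (s * (h + h + 1) + t) = |t| := by
  unfold dlo
  have e : s * ((h : ℤ) + h + 1) + t + h = (t + h) + s * (h + h + 1) := by ring
  rw [e, Int.add_mul_emod_self_right, Int.emod_eq_of_lt (by omega) (by omega)]
  congr 1
  ring

theorem deco (h : ℕ) (x : ℤ) :
    ∃ s t : ℤ, x = s * (h + h + 1) + t ∧ -(h : ℤ) ≤ t ∧ t ≤ h := by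
  have h0 : (0 : ℤ) < h + h + 1 := by omega
  refine ⟨(x + h) / (h + h + 1), (x + h) % (h + h + 1) - h, ?_, ?_, ?_⟩
  · have := Int.mul_ediv_add_emod (x + h) (h + h + 1)
    have e : (x + h) / ((h : ℤ) + h + 1) * (h + h + 1) = (h + h + 1) * ((x + h) / (h + h + 1)) := by
      ring
    rw [e]
    linarith
  · have := Int.emod_nonneg (x + h) h0.ne'
    omega
  · have := Int.emod_lt_of_pos (x + h) h0
    omega

theorem bo_len (h : ℕ) : (bwm (h + h + 1)).length = h + h + 1 := by
  unfold bwm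
  rw [List.length_append, List.length_replicate, List.length_replicate]
  omega

theorem bo_getD (h m : ℕ) : (bwm (h + h + 1)).getD m true = decide (h ≤ m) := by
  unfold bwm
  have e : (h + h + 1) / 2 = h := by omega
  have e2 : h + h + 1 - h = h + 1 := by omega
  rw [e, e2, List.getD_eq_getElem?_getD, List.getElem?_append]
  by_cases hm : m < h
  · simp [hm]
  · have h1 : h ≤ m := by omega
    simp only [List.length_replicate, hm, if_false, List.getElem?_replicate]
    by_cases h2 : m - h < h + 1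
    · simp [h2, h1]
    · simp [h2, h1]

theorem sg_bo {h : ℕ} (s t : ℤ) (h1 : -(h : ℤ) ≤ t) (h2 : t ≤ h) :
    sg (bwm (h + h + 1)) (s * (h + h + 1) + t) = if 0 ≤ t ∧ t < h then -1 else 1 := by
  unfold sg
  rw [bo_len]
  push_cast
  have e : s * ((h : ℤ) + h + 1) + t = t + s * (h + h + 1) := by ring
  rw [e, Int.add_mul_emod_self_right]
  by_cases ht : 0 ≤ t
  · rw [Int.emod_eq_of_lt ht (by omega), bo_getD]
    by_cases ht2 : t < h
    · rw [if_pos (show 0 ≤ t ∧ t < (h : ℤ) from ⟨ht, ht2⟩), if_neg]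
      simp only [decide_eq_true_eq, not_le]
      omega
    · rw [if_neg (show ¬ (0 ≤ t ∧ t < (h : ℤ)) from fun hh => ht2 hh.2), if_pos]
      simp only [decide_eq_true_eq]
      omega
  · have e2 : t % ((h : ℤ) + h + 1) = t + (h + h + 1) := by
      rw [← Int.add_emod_right, Int.emod_eq_of_lt (by omega) (by omega)]
    rw [e2, bo_getD, if_neg (show ¬ (0 ≤ t ∧ t < (h : ℤ)) from fun hh => ht hh.1), if_pos]
    simp only [decide_eq_true_eq]
    omega

theorem inco (h : ℕ) : Inc (sg (bwm (h + h + 1))) (fun x => ixo h x - dlo h x) := by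
  intro x
  obtain ⟨s, t, rfl, h1, h2⟩ := deco h x
  show ixo h _ - dlo h _ = ixo h _ - dlo h _ + _
  rw [dlo_eq s t h1 h2, ixo_eq s t h1 h2, sg_bo s t h1 h2]
  rcases lt_or_eq_of_le h2 with h3 | h3
  · have e : s * ((h : ℤ) + h + 1) + t + 1 = s * (h + h + 1) + (t + 1) := by ring
    rw [e, dlo_eq s (t + 1) (by omega) (by omega), ixo_eq s (t + 1) (by omega) (by omega)]
    by_cases ht : 0 ≤ t
    · rw [if_pos ⟨ht, h3⟩, abs_of_nonneg ht, abs_of_nonneg (by omega)]
      ring
    · rw [if_neg (fun hh => ht hh.1), abs_of_nonpos (by omega), abs_of_nonpos (by omega)]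
      ring
  · have e : s * ((h : ℤ) + h + 1) + t + 1 = (s + 1) * (h + h + 1) + (-h) := by rw [h3]; ring
    rw [e, dlo_eq (s + 1) (-h) (by omega) (by omega), ixo_eq (s + 1) (-h) (by omega) (by omega),
      if_neg (fun hh => by omega), abs_neg, h3]
    ring

theorem inv_Rwo {h : ℕ} {a b : ℤ} (hR : Rw (bwm (h + h + 1)) a b) :
    dlo h a = dlo h b ∧ ixo h a = ixo h b := by
  rw [Rw_iff (inco h)] at hR
  obtain ⟨e, hl⟩ := hR
  obtain ⟨s, t, rfl, h1, h2⟩ := deco h a
  obtain ⟨s', t', rfl, h3, h4⟩ := deco h b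
  beta_reduce at e hl
  have d1 := dlo_eq s t h1 h2
  have d2 := dlo_eq s' t' h3 h4
  have i1 := ixo_eq s t h1 h2
  have i2 := ixo_eq s' t' h3 h4
  rw [d1, i1] at e hl ⊢
  rw [d2, i2] at e ⊢
  have ht : |t| ≤ h := abs_le.2 ⟨h1, h2⟩
  have ht' : |t'| ≤ h := abs_le.2 ⟨h3, h4⟩
  have hh' : |(h : ℤ)| = h := abs_of_nonneg (by omega)
  have hpos : (0 : ℤ) < h + h + 1 := by omega
  rcases lt_trichotomy s s' with h5 | h5 | h5
  · exfalso
    have h6 : (s + 1) * ((h : ℤ) + h + 1) ≤ s' * (h + h + 1) :=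
      mul_le_mul_of_nonneg_right (by omega) hpos.le
    have h7 : (s + 1) * ((h : ℤ) + h + 1) = s * (h + h + 1) + (h + h + 1) := by ring
    have h8 := hl (s * (h + h + 1) + h) (Or.inl ⟨by omega, by omega⟩)
    rw [dlo_eq s h (by omega) le_rfl, ixo_eq s h (by omega) le_rfl, hh'] at h8
    omega
  · subst h5
    exact ⟨by omega, rfl⟩
  · exfalso
    have h6 : (s' + 1) * ((h : ℤ) + h + 1) ≤ s * (h + h + 1) :=
      mul_le_mul_of_nonneg_right (by omega) hpos.le
    have h7 : (s' + 1) * ((h : ℤ) + h + 1) = s' * (h + h + 1) + (h + h + 1) := by ring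
    have h8 := hl (s' * (h + h + 1) + h) (Or.inr ⟨by omega, by omega⟩)
    rw [dlo_eq s' h (by omega) le_rfl, ixo_eq s' h (by omega) le_rfl, hh'] at h8
    omega

theorem conno {h : ℕ} (s z : ℤ) (h0 : 0 ≤ z) (h1 : z ≤ h) :
    Rw (bwm (h + h + 1)) (s * (h + h + 1) - z) (s * (h + h + 1) + z) := by
  rw [Rw_iff (inco h)]
  have e : s * ((h : ℤ) + h + 1) - z = s * (h + h + 1) + (-z) := by ring
  have d1 : dlo h (s * (h + h + 1) - z) = z := by
    rw [e, dlo_eq s (-z) (by omega) (by omega), abs_neg, abs_of_nonneg h0]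
  have i1 : ixo h (s * (h + h + 1) - z) = s := by
    rw [e, ixo_eq s (-z) (by omega) (by omega)]
  apply RH.of_le (by omega)
  · rw [d1, i1, dlo_eq s z (by omega) h1, ixo_eq s z (by omega) h1, abs_of_nonneg h0]
  · intro l hl1 hl2
    have e2 : l = s * (h + h + 1) + (l - s * (h + h + 1)) := by ring
    rw [d1, i1, e2, dlo_eq s _ (by omega) (by omega), ixo_eq s _ (by omega) (by omega)]
    have : |l - s * ((h : ℤ) + h + 1)| ≤ z := abs_le.2 ⟨by omega, by omega⟩
    omega

/-- the invariant: (peak, distance, side) -/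
def phi (h k : ℕ) (z : ℤ × Bool) : ℤ × ℤ × Bool :=
  if z.2 then
    (if dl k z.1 = (k : ℤ) then 0 else ix k z.1, dl k z.1, decide (dl k z.1 ≠ 0))
  else (if k = 0 ∧ dlo h z.1 = 0 then 0 else ixo h z.1, dlo h z.1, false)

theorem phi_Lg {h k : ℕ} {x y : ℤ × Bool}
    (hL : Lg (h + h + 1) (k + k) (bwm (k + k)) (bwm (h + h + 1)) x y) :
    phi h k x = phi h k y := by
  cases hL with
  | low a b hR =>
    obtain ⟨h1, h2⟩ := inv_Rwo hR
    unfold phi
    simp only [Bool.false_eq_true, if_false]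
    rw [h1, h2]
  | upp a b hR =>
    rw [bwm_even] at hR
    obtain ⟨h1, h2⟩ := inv_Rw hR
    unfold phi
    simp only [if_true]
    rw [h1] at h2 ⊢
    rcases h2 with h2 | h2
    · rw [if_pos h2, if_pos h2]
    · rw [h2]
  | glue s i hi =>
    rw [bo_len] at hi
    have hi0 : i = 0 := by omega
    subst hi0
    unfold phi
    simp only [Bool.false_eq_true, if_false, if_true, bwm_even, bw_len, bo_len]
    push_cast
    have e : s * ((h : ℤ) + h + 1) + (h + h + 1) + 0 = (s + 1) * (h + h + 1) + 0 := by ring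
    rw [e, dlo_eq (s + 1) 0 (by omega) (by omega), ixo_eq (s + 1) 0 (by omega) (by omega),
      abs_zero, add_zero, dl_pk]
    rcases Nat.eq_zero_or_pos k with h0 | h0
    · subst h0
      simp
    · rw [ix_pk h0, if_neg (by omega), if_neg (by omega)]
      simp

theorem phi_Cn {h k : ℕ} {x y : ℤ × Bool}
    (hC : Cn (h + h + 1) (k + k) (bwm (k + k)) (bwm (h + h + 1)) x y) :
    phi h k x = phi h k y := by
  induction hC with
  | rel x y hxy => exact phi_Lg hxy
  | refl x => rfl
  | symm x y _ ih => exact ih.symm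
  | trans x y z _ _ ih1 ih2 => exact ih1.trans ih2

theorem pt_low {h k : ℕ} (s : ℤ) {c : ℕ} (hc : c ≤ h + h + 1) :
    pt (h + h + 1) (k + k) (bwm (k + k)) (bwm (h + h + 1)) s c =
      (s * ((h : ℤ) + h + 1) + c, false) := by
  unfold pt
  rw [if_pos hc, bo_len]
  push_cast
  rfl

theorem pt_upp {h k : ℕ} (s : ℤ) {c : ℕ} (hc : h + h + 1 < c) :
    pt (h + h + 1) (k + k) (bwm (k + k)) (bwm (h + h + 1)) s c =
      (s * ((k : ℤ) + k) + (((h : ℤ) + h + 1) + (k + k) - c), true) := by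
  unfold pt
  rw [if_neg (by omega), bwm_even, bw_len]
  push_cast
  rfl

theorem lowAo {h : ℕ} {c : ℤ} (h0 : 0 ≤ c) (h1 : c ≤ h) : dlo h c = c ∧ ixo h c = 0 := by
  have e : c = 0 * ((h : ℤ) + h + 1) + c := by ring
  constructor
  · rw [e, dlo_eq 0 c (by omega) (by omega), abs_of_nonneg h0]
    ring
  · rw [e, ixo_eq 0 c (by omega) (by omega)]

theorem lowBo {h : ℕ} {c : ℤ} (h0 : (h : ℤ) < c) (h1 : c ≤ h + h + 1) :
    dlo h c = h + h + 1 - c ∧ ixo h c = 1 := by
  have e : c = 1 * ((h : ℤ) + h + 1) + (c - (h + h + 1)) := by ring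
  constructor
  · rw [e, dlo_eq 1 _ (by omega) (by omega), abs_of_nonpos (by omega)]
    ring
  · rw [e, ixo_eq 1 _ (by omega) (by omega)]

theorem diff {h k c d : ℕ} (hd : d < (h + h + 1) + (k + k)) (hcd : c < d) :
    phi h k (pt (h + h + 1) (k + k) (bwm (k + k)) (bwm (h + h + 1)) 0 c) ≠
      phi h k (pt (h + h + 1) (k + k) (bwm (k + k)) (bwm (h + h + 1)) 0 d) := by
  intro he
  rcases Nat.lt_or_ge (h + h + 1) c with h1 | h1
  · -- both above
    rw [pt_upp 0 h1, pt_upp 0 (by omega)] at he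
    have hk : 0 < k := by omega
    unfold phi at he
    simp only [if_true, zero_mul, zero_add, Prod.mk.injEq] at he
    obtain ⟨he1, he2, -⟩ := he
    set y : ℤ := (h : ℤ) + h + 1 + (k + k) - c with hy
    set y' : ℤ := (h : ℤ) + h + 1 + (k + k) - d with hy'
    rcases lt_or_ge y' k with g1 | g1
    · obtain ⟨a1, a2⟩ := lowA (h := k) (c := y') (by omega) g1
      rcases lt_or_ge y k with g2 | g2
      · obtain ⟨b1, b2⟩ := lowA (h := k) (c := y) (by omega) g2
        omega
      · obtain ⟨b1, b2⟩ := lowB (h := k) (c := y) hk g2 (by omega)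
        rw [a1, b1] at he2
        rw [a1, a2, b1, b2, if_neg (by omega), if_neg (by omega)] at he1
        omega
    · obtain ⟨a1, a2⟩ := lowB (h := k) (c := y') hk g1 (by omega)
      obtain ⟨b1, b2⟩ := lowB (h := k) (c := y) hk (by omega) (by omega)
      omega
  · rcases Nat.lt_or_ge (h + h + 1) d with h2 | h2
    · -- one below, one above
      rw [pt_low 0 h1, pt_upp 0 h2] at he
      have hk : 0 < k := by omega
      unfold phi at he
      simp only [if_true, zero_mul, zero_add, Prod.mk.injEq, Bool.false_eq_true, if_false] at he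
      obtain ⟨-, -, he3⟩ := he
      have hne : dl k ((h : ℤ) + h + 1 + (k + k) - d) ≠ 0 := by
        rcases lt_or_ge ((h : ℤ) + h + 1 + (k + k) - d) k with g1 | g1
        · rw [(lowA (h := k) (by omega) g1).1]
          omega
        · rw [(lowB (h := k) hk g1 (by omega)).1]
          omega
      simp [hne] at he3
    · -- both below
      rw [pt_low 0 h1, pt_low 0 h2] at he
      unfold phi at he
      simp only [Bool.false_eq_true, if_false, zero_mul, zero_add, Prod.mk.injEq] at he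
      obtain ⟨he1, he2, -⟩ := he
      rcases le_or_gt (c : ℤ) h with g1 | g1
      · obtain ⟨a1, a2⟩ := lowAo (h := h) (c := c) (by omega) g1
        rcases le_or_gt (d : ℤ) h with g2 | g2
        · obtain ⟨b1, b2⟩ := lowAo (h := h) (c := d) (by omega) g2
          omega
        · obtain ⟨b1, b2⟩ := lowBo (h := h) (c := d) g2 (by omega)
          rw [a1, b1] at he2
          rw [a1, a2, b1, b2] at he1
          by_cases hz : k = 0 ∧ (c : ℤ) = 0
          · omega
          · rw [if_neg hz, if_neg (by omega)] at he1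
            omega
      · obtain ⟨a1, a2⟩ := lowBo (h := h) (c := c) g1 (by omega)
        obtain ⟨b1, b2⟩ := lowBo (h := h) (c := d) (by omega) (by omega)
        omega

theorem ex_other {h k c : ℕ} (hc : c < (h + h + 1) + (k + k)) :
    ∃ s : ℤ, s ≠ 0 ∧ ∃ d : ℕ, d < (h + h + 1) + (k + k) ∧
      Cn (h + h + 1) (k + k) (bwm (k + k)) (bwm (h + h + 1))
        (pt (h + h + 1) (k + k) (bwm (k + k)) (bwm (h + h + 1)) 0 c)
        (pt (h + h + 1) (k + k) (bwm (k + k)) (bwm (h + h + 1)) s d) := by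
  rcases Nat.lt_or_ge (h + h + 1) c with h1 | h1
  · -- above
    have hk : 0 < k := by omega
    rw [pt_upp 0 h1]
    obtain ⟨y, hy⟩ : ∃ y : ℕ, y + c = (h + h + 1) + (k + k) :=
      ⟨(h + h + 1) + (k + k) - c, by omega⟩
    have e0 : (0 : ℤ) * ((k : ℤ) + k) + (((h : ℤ) + h + 1) + (k + k) - c) = y := by
      have : ((y : ℤ) + c) = ((h : ℤ) + h + 1) + (k + k) := by exact_mod_cast hy
      linarith
    rw [e0]
    rcases Nat.lt_or_ge y k with g | g
    · refine ⟨-1, by omega, h + h + 1 + y, by omega, ?_⟩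
      rw [pt_upp (-1) (by omega)]
      have e1 : (-1 : ℤ) * ((k : ℤ) + k) + (((h : ℤ) + h + 1) + (k + k) -
          ((h + h + 1 + y : ℕ) : ℤ)) = 0 * ((k : ℤ) + k) - y := by push_cast; ring
      have e2 : 0 * ((k : ℤ) + k) + y = y := by ring
      have hcn := conn hk 0 (y : ℤ) (by omega) (by omega)
      rw [e2, ← bwm_even] at hcn
      rw [e1]
      exact Relation.EqvGen.symm _ _ (Relation.EqvGen.rel _ _ (Lg.upp _ _ hcn))
    · refine ⟨1, by omega, h + h + 1 + y, by omega, ?_⟩
      rw [pt_upp 1 (by omega)]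
      have e1 : (1 : ℤ) * ((k : ℤ) + k) + (((h : ℤ) + h + 1) + (k + k) -
          ((h + h + 1 + y : ℕ) : ℤ)) = 1 * ((k : ℤ) + k) + ((k : ℤ) + k - y) := by
        push_cast; ring
      have e2 : (y : ℤ) = 1 * ((k : ℤ) + k) - ((k : ℤ) + k - y) := by ring
      have hcn := conn hk 1 ((k : ℤ) + k - y) (by omega) (by omega)
      rw [← e2, ← bwm_even] at hcn
      rw [e1]
      exact Relation.EqvGen.rel _ _ (Lg.upp _ _ hcn)
  · -- below
    rw [pt_low 0 h1]
    have e0 : (0 : ℤ) * ((h : ℤ) + h + 1) + c = c := by ring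
    rw [e0]
    rcases Nat.lt_or_ge h c with g | g
    · refine ⟨1, by omega, h + h + 1 - c, by omega, ?_⟩
      rw [pt_low 1 (by omega)]
      have hcn := conno (h := h) 1 ((h + h + 1 - c : ℕ) : ℤ) (by omega) (by omega)
      have e2 : 1 * ((h : ℤ) + h + 1) - ((h + h + 1 - c : ℕ) : ℤ) = c := by
        rw [Nat.cast_sub h1]
        push_cast
        ring
      rw [e2] at hcn
      exact Relation.EqvGen.rel _ _ (Lg.low _ _ hcn)
    · by_cases h2 : c = 0 ∧ k = 0
      · obtain ⟨hc0, hk0⟩ := h2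
        subst hc0
        subst hk0
        refine ⟨1, by omega, 0, by omega, ?_⟩
        rw [pt_low 1 (Nat.zero_le _)]
        have g1 := Lg.glue (p := h + h + 1) (r := 0 + 0) (w' := bwm (0 + 0))
          (w := bwm (h + h + 1)) (-1) 0 (by rw [bo_len]; omega)
        have g2 := Lg.glue (p := h + h + 1) (r := 0 + 0) (w' := bwm (0 + 0))
          (w := bwm (h + h + 1)) 0 0 (by rw [bo_len]; omega)
        rw [bo_len, bwm_even, bw_len] at g1 g2
        rw [bwm_even]
        push_cast at g1 g2 ⊢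
        have a1 : (-1 : ℤ) * ((h : ℤ) + h + 1) + (h + h + 1) + 0 = 0 := by ring
        have a2 : (0 : ℤ) * ((h : ℤ) + h + 1) + (h + h + 1) + 0 = 1 * ((h : ℤ) + h + 1) + 0 := by
          ring
        rw [a1] at g1
        rw [a2] at g2
        exact Relation.EqvGen.trans _ _ _ (Relation.EqvGen.rel _ _ g1)
          (Relation.EqvGen.symm _ _ (Relation.EqvGen.rel _ _ g2))
      · refine ⟨-1, by omega, h + h + 1 - c, by omega, ?_⟩
        rw [pt_low (-1) (by omega)]
        have e1 : (-1 : ℤ) * ((h : ℤ) + h + 1) + ((h + h + 1 - c : ℕ) : ℤ) =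
            0 * ((h : ℤ) + h + 1) - c := by
          rw [Nat.cast_sub h1]
          push_cast
          ring
        have hcn := conno (h := h) 0 (c : ℤ) (by omega) (by omega)
        rw [e0] at hcn
        rw [e1]
        exact Relation.EqvGen.symm _ _ (Relation.EqvGen.rel _ _ (Lg.low _ _ hcn))

theorem base_odd (h k : ℕ) :
    ee (h + h + 1) (k + k) (bwm (k + k)) (bwm (h + h + 1)) = 1 := by
  unfold ee
  rw [if_pos]
  refine ⟨fun c d hc hd hcd hC => ?_, fun c hc => ex_other hc⟩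
  have hphi := phi_Cn hC
  rcases Nat.lt_or_gt_of_ne hcd with h1 | h1
  · exact diff hd h1 hphi
  · exact diff hc h1 hphi.symm

theorem bwm_len (p : ℕ) : (bwm p).length = p := by
  unfold bwm
  rw [List.length_append, List.length_replicate, List.length_replicate]
  omega

end OTbase

open OTbase in
theorem t_base : S_base := by
  intro p r hpr
  rcases Nat.even_or_odd r with hr | hr
  · obtain ⟨k, rfl⟩ := hr
    obtain ⟨h, rfl⟩ : ∃ h, p = h + h + 1 := by
      obtain ⟨m, hm⟩ := hpr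
      exact ⟨m - k, by omega⟩
    exact base_odd h k
  · obtain ⟨h, rfl⟩ : ∃ h, r = h + h + 1 := by
      obtain ⟨m, hm⟩ := hr
      exact ⟨m, by omega⟩
    obtain ⟨k, rfl⟩ : ∃ k, p = k + k := by
      obtain ⟨m, hm⟩ := hpr
      exact ⟨m - h, by omega⟩
    rw [Pool.Agent.H160R2.ML.t_symm (k + k) (h + h + 1) (bwm (h + h + 1)) (bwm (k + k))
      (by rw [bwm_len, bwm_len]; omega) (by rw [bwm_len]) (by omega)]
    exact base_odd h k

end Pool.Agent.W801.OL
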