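import Pool.Agent.W801.OL.T_LS
import Pool.Agent.W801.OL.T_G
import Pool.Agent.W801.OL.T_TA
import Pool.Agent.W801.OL.T_TB
import Pool.Agent.W801.OL.T_HV
import Pool.Agent.W639.OL.T_one
import Pool.Agent.W801.OL.T_NT
import Pool.Agent.W801.OL.T_PB
import Pool.Agent.W801.OL.T_FA
import Pool.Agent.W801.OL.T_Y1
import Pool.Agent.W801.OL.T_Y2
import Pool.Agent.W801.OL.T_Y3
import Pool.Agent.W801.OL.T_Y4
import Pool.Agent.W801.OL.T_base
import Pool.Agent.W808.HB.T_X1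
import Pool.Agent.W808.HB.T_X3
import Pool.Agent.W808.HB.T_X6
import Pool.Agent.H160R2.ML.All

/-! An odd number of legs at a dislocation: assembly. -/

set_option autoImplicit false

namespace Pool.Agent.W801.OL
open Pool.Agent.H160R2 (ML.S_TP)

theorem a_LS : S_LS := t_LS t_base
theorem a_TA : S_TA := t_TA t_legx t_thr t_mvR t_mvL t_deg t_swap t_bs
  Pool.Agent.H160R2.ML.t_TP Pool.Agent.H160R2.ML.t_RP Pool.Agent.H160R2.ML.t_RM
theorem a_TB : S_TB := t_TB a_TA t_deg Pool.Agent.H160R2.ML.t_TP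
theorem a_HV : S_HV := t_HV a_TB Pool.Agent.H160R2.ML.t_HL
theorem a_NT : S_NT := t_NT a_LS t_one a_HV Pool.Agent.H160R2.ML.a_M0
theorem a_PB : S_PB := t_PB a_LS a_HV a_NT
theorem a_FA : S_FA := t_FA Pool.Agent.H160R2.ML.a_AN Pool.Agent.H160R2.ML.t_BE
  Pool.Agent.H160R2.ML.a_PH
theorem a_X3 : Pool.Agent.W808.HB.S_X3 := Pool.Agent.W808.HB.t_X3 Pool.Agent.W808.HB.t_X1
theorem a_Y1 : S_Y1 := t_Y1 a_X3
theorem a_Y3 : S_Y3 := t_Y3 a_Y1 t_Y2 Pool.Agent.W808.HB.t_X6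
theorem a_Y4 : S_Y4 := t_Y4 a_PB a_FA a_Y3

end Pool.Agent.W801.OL
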