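import Pool.Agent.W801.OL.Stm
import Pool.Agent.H160R2.ML.T_symm
import Pool.Agent.H160R2.ML.T_zero
import Pool.Agent.H160R2.ML.T_insR
import Pool.Agent.H160R2.ML.T_moveR
import Pool.Agent.H160R2.ML.T_moveL

/-! The axioms of the leg functional without parity. -/

set_option autoImplicit false

namespace Pool.Agent.W801.OL
open Pool.Agent.H863R2.Cyl
open Pool.Agent.H988R2.Perc (Word PD)
open Pool.Agent.H160R2.ML

theorem t_symm : S_symm := by
  intro p r w' w h hp
  unfold ee
  have hiff : Good p r w' w ↔ Good r p w w' :=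
    ⟨Tsymm.good_of h hp, Tsymm.good_of h.symm (by omega)⟩
  by_cases hg : Good p r w' w
  · rw [if_pos hg, if_pos (hiff.1 hg)]
  · rw [if_neg hg, if_neg (fun hg' => hg (hiff.2 hg'))]

theorem t_zero : S_zero := by
  intro p r i w' u _ _ _ hip hp
  unfold ee
  rw [if_neg]
  rintro ⟨-, h⟩
  obtain ⟨s, hs, d, hd, h1⟩ := h (i + 1) (by omega)
  have h2 := (Tzero.inv hip hp h1).1 (by
    unfold pt
    rw [if_pos (by omega)]
    simp)
  unfold pt at h2
  split_ifs at h2 with h3
  · simp only [Prod.mk.injEq, and_true] at h2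
    rw [Tzero.len_lins] at h2
    push_cast at h2
    rcases lt_or_gt_of_ne hs with h4 | h4
    · have : s * ((u.length : ℤ) + 2) ≤ (-1) * ((u.length : ℤ) + 2) :=
        mul_le_mul_of_nonneg_right (by omega) (by positivity)
      omega
    · have : 1 * ((u.length : ℤ) + 2) ≤ s * ((u.length : ℤ) + 2) :=
        mul_le_mul_of_nonneg_right (by omega) (by positivity)
      omega
  · simp at h2

open TinsR in
theorem t_insR : S_insR := by
  intro p r i w' u hw' _ hl hpi hi
  have h1 := length_cap (i := i - p + r) (w := w') (by omega)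
  have H : HH p r i w' u (cap (i - p + r) w') (i - p + r) :=
    { ok := hw'
      l2 := h1.symm
      lv := by omega
      hv := rfl
      ii := by omega
      hp := hpi
      hi := hi }
  unfold ee
  rw [H.good]

theorem t_moveR : S_moveR := by
  intro p r w' u _ _ _ hp hp2
  obtain ⟨i, rfl⟩ : ∃ i, p = i + 1 := ⟨p - 1, by omega⟩
  have hi : i ≤ u.length := by omega
  have h := TmoveR.good_iff (r := r) (w' := w') hi
  unfold ee
  rw [Nat.add_sub_cancel]
  by_cases hg : Good (i + 1) r w' (lins i u)
  · rw [if_pos hg, if_pos (h.mp hg)]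
  · rw [if_neg hg, if_neg (fun hh => hg (h.mpr hh))]

theorem t_moveL : S_moveL := by
  intro p r w' u _ _ hl hp hp'
  obtain ⟨P, rfl⟩ : ∃ P, p = P + 1 := ⟨p - 1, by omega⟩
  have h := TmoveL.Good_iff (P := P) (r := r) (w' := w') (u := u) hl (by omega)
  rw [Nat.add_sub_cancel]
  unfold ee
  by_cases hg : Good P (r + 1) (rotr w') u
  · rw [if_pos hg, if_pos (h.2 hg)]
  · rw [if_neg hg, if_neg (fun h' => hg (h.1 h'))]

theorem t_LS (h6 : S_base) : S_LS := by
  intro l hl
  constructor
  · intro p r w' w _ hlen hp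
    exact t_symm p r w' w hlen hp
  · intro p r i w' u _ ha hb hd he hf
    exact t_zero p r i w' u ha hb hd he hf
  · intro p r i w' u _ ha hb hd he hf
    exact t_insR p r i w' u ha hb hd he hf
  · intro p r w' u _ ha hb hd he hf
    exact t_moveR p r w' u ha hb hd he hf
  · intro p r w' u _ ha hb hd he hf
    exact t_moveL p r w' u ha hb hd he hf
  · intro p r hpr
    exact h6 p r (hpr ▸ hl)

end Pool.Agent.W801.OL
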