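import Pool.Agent.H160R2.ML.Stm
import Pool.Agent.W808.HB.Stm

/-!
# An odd number of legs at a dislocation: definitions

Lower half-infinite cylinder of circumference `p + M`, upper one of circumference `r + M`, `p + r`
odd; the strands `0, …, p-1` of the lower cylinder and `0, …, r-1` of the upper one end at the slit,
the other `M` strands are glued.  The colours of the faces are exchanged around the slit.
-/

set_option autoImplicit false

namespace Pool.Agent.W801.OL
open Pool.Agent.H863R2.Cyl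
open Pool.Agent.H988R2.Perc (Word PD)
open Pool.Agent.H160R2.ML (Good ee Cn Lg pt GG prE pfq Gn T lg Dl RR)
open Pool.Agent.W808.HB (bwm kap HL crow Alt coinsH)
open MeasureTheory

/-- axioms of the leg functional (`l` legs in total) -/
structure LSp (l : ℕ) (e : ℕ → ℕ → Word → Word → ℂ) : Prop where
  symm : ∀ (p r : ℕ) (w' w : Word), p + r = l → w'.length + p = w.length + r → p ≤ w.length →
    e p r w' w = e r p w w'
  zero : ∀ (p r i : ℕ) (w' u : Word), p + r = l → Ok w' → Ok u →
    w'.length + p = u.length + 2 + r → i + 2 ≤ p → p ≤ u.length + 2 → e p r w' (lins i u) = 0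
  insR : ∀ (p r i : ℕ) (w' u : Word), p + r = l → Ok w' → Ok u →
    w'.length + p = u.length + 2 + r → p ≤ i → i ≤ u.length →
    e p r w' (lins i u) = e p r (cap (i - p + r) w') u
  moveR : ∀ (p r : ℕ) (w' u : Word), p + r = l → Ok w' → Ok u →
    w'.length + p = u.length + 2 + r → 1 ≤ p → p ≤ u.length + 1 →
    e p r w' (lins (p - 1) u) = e (p - 1) (r + 1) w' u
  moveL : ∀ (p r : ℕ) (w' u : Word), p + r = l → Ok w' → Ok u →
    w'.length + p = u.length + 2 + r → 1 ≤ p → p ≤ u.length + 1 →
    e p r w' (seam u) = e (p - 1) (r + 1) (rotr w') u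
  base : ∀ p r : ℕ, p + r = l → e p r (bwm r) (bwm p) = 1

/-- the common data -/
structure Dat (q : ℂ) (l : ℕ) (e : ℕ → ℕ → Word → Word → ℂ) (Ψ Ψ' : List ℂ → VW) : Prop where
  hq : q ^ 2 + q + 1 = 0
  hl : Odd l
  he : LSp l e
  h : Fam q Ψ
  h' : Fam (q ^ 2) Ψ'

/-- The links of the dislocated cylinder (universal cover; heights and depths `t ≥ 0`, `false` =
lower half of circumference `p + M`, `true` = upper half of circumference `r + M`).  The coins `ω`
are those of the lower half and `ω'` those of the upper half; the points `p, p+1, …, p+M` of the lower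
boundary are glued with the points `r, r+1, …, r+M` of the upper boundary. -/
inductive Lk2 (p r M : ℕ) (ω ω' : ℤ × ℕ → Bool) : (ℤ × ℕ) × Bool → (ℤ × ℕ) × Bool → Prop
  | low (x y : ℤ × ℕ) : HL (p + M) (p + M) ω x y → Lk2 p r M ω ω' (x, false) (y, false)
  | upp (x y : ℤ × ℕ) : HL (r + M) (r + M) ω' x y → Lk2 p r M ω ω' (x, true) (y, true)
  | glue (s : ℤ) (i : ℕ) : i ≤ M →
      Lk2 p r M ω ω' ((s * (p + M : ℕ) + p + i, 0), false) ((s * (r + M : ℕ) + r + i, 0), true)

/-- the sector number `c < p + r` around the slit number `s` -/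
def sec2 (p r M : ℕ) (s : ℤ) (c : ℕ) : (ℤ × ℕ) × Bool :=
  if c ≤ p then ((s * (p + M : ℕ) + c, 0), false)
  else ((s * (r + M : ℕ) + ((p : ℤ) + r - c), 0), true)

/-- the sectors of a slit are pairwise not connected, and each of them is connected to a sector of
another slit -/
def LegEv2 (p r M : ℕ) (ω ω' : ℤ × ℕ → Bool) : Prop :=
  (∀ c d : ℕ, c < p + r → d < p + r → c ≠ d →
    ¬ Relation.EqvGen (Lk2 p r M ω ω') (sec2 p r M 0 c) (sec2 p r M 0 d)) ∧
  (∀ c : ℕ, c < p + r → ∃ s : ℤ, s ≠ 0 ∧ ∃ d : ℕ, d < p + r ∧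
    Relation.EqvGen (Lk2 p r M ω ω') (sec2 p r M 0 c) (sec2 p r M s d))

end Pool.Agent.W801.OL
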