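import Pool.Agent.W801.OL.Defs

/-!
# An odd number of legs at a dislocation: the steps
(every step is a `Prop`; the file `T_X.lean` proves `t_X` from its hypotheses)
-/

set_option autoImplicit false

namespace Pool.Agent.W801.OL
open Pool.Agent.H863R2.Cyl
open Pool.Agent.H988R2.Perc (Word PD)
open Pool.Agent.H160R2.ML (Good ee Cn Lg pt GG prE pfq Gn T lg Dl RR)
open Pool.Agent.W808.HB (bwm kap HL crow Alt coinsH)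
open Filter Topology MeasureTheory

/-! ## L: the leg functional -/

def S_symm : Prop := ∀ (p r : ℕ) (w' w : Word), w'.length + p = w.length + r → p ≤ w.length →
  ee p r w' w = ee r p w w'

def S_zero : Prop := ∀ (p r i : ℕ) (w' u : Word), Ok w' → Ok u →
  w'.length + p = u.length + 2 + r → i + 2 ≤ p → p ≤ u.length + 2 → ee p r w' (lins i u) = 0

def S_insR : Prop := ∀ (p r i : ℕ) (w' u : Word), Ok w' → Ok u →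
  w'.length + p = u.length + 2 + r → p ≤ i → i ≤ u.length →
  ee p r w' (lins i u) = ee p r (cap (i - p + r) w') u

def S_moveR : Prop := ∀ (p r : ℕ) (w' u : Word), Ok w' → Ok u →
  w'.length + p = u.length + 2 + r → 1 ≤ p → p ≤ u.length + 1 →
  ee p r w' (lins (p - 1) u) = ee (p - 1) (r + 1) w' u

def S_moveL : Prop := ∀ (p r : ℕ) (w' u : Word), Ok w' → Ok u →
  w'.length + p = u.length + 2 + r → 1 ≤ p → p ≤ u.length + 1 →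
  ee p r w' (seam u) = ee (p - 1) (r + 1) (rotr w') u

def S_base : Prop := ∀ p r : ℕ, Odd (p + r) → ee p r (bwm r) (bwm p) = 1

def S_LS : Prop := ∀ l : ℕ, Odd l → LSp l ee

/-! ## G: the partition function with legs -/

def S_legx : Prop := ∀ (q : ℂ) (l : ℕ) (e : ℕ → ℕ → Word → Word → ℂ) (Ψ Ψ' : List ℂ → VW),
  Dat q l e Ψ Ψ' → ∀ (u v B z : List ℂ) (x y : ℂ), u.length + v.length + 2 + B.length = l →
  (q * y - q ^ 2 * x) * GG e Ψ' Ψ (u ++ y :: x :: v) B z =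
    (q * x - q ^ 2 * y) * GG e Ψ' Ψ (u ++ x :: y :: v) B z

def S_thr : Prop := ∀ (q : ℂ) (l : ℕ) (e : ℕ → ℕ → Word → Word → ℂ) (Ψ Ψ' : List ℂ → VW),
  Dat q l e Ψ Ψ' → ∀ (A B z z' : List ℂ), z.Perm z' → A.length + B.length = l →
  Gn z → GG e Ψ' Ψ A B z = GG e Ψ' Ψ A B z'

def S_mvR : Prop := ∀ (q : ℂ) (l : ℕ) (e : ℕ → ℕ → Word → Word → ℂ) (Ψ Ψ' : List ℂ → VW),
  Dat q l e Ψ Ψ' → ∀ (A B z : List ℂ) (x : ℂ), A.length + 1 + B.length = l →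
  GG e Ψ' Ψ (A ++ [x]) B ((q * x) :: z) = fac q x (A ++ z) * GG e Ψ' Ψ A (B ++ [q * x]) z

def S_mvL : Prop := ∀ (q : ℂ) (l : ℕ) (e : ℕ → ℕ → Word → Word → ℂ) (Ψ Ψ' : List ℂ → VW),
  Dat q l e Ψ Ψ' → ∀ (A B z : List ℂ) (y : ℂ), A.length + 1 + B.length = l →
  GG e Ψ' Ψ ((q * y) :: A) B (z ++ [y]) = fac q y (A ++ z) * GG e Ψ' Ψ A (y :: B) z

def S_deg : Prop := ∀ (q : ℂ) (l : ℕ) (e : ℕ → ℕ → Word → Word → ℂ) (Ψ Ψ' : List ℂ → VW),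
  Dat q l e Ψ Ψ' → ∀ (A B z : List ℂ), A.length + 1 + B.length = l →
  ∃ P : Polynomial ℂ, P.natDegree ≤ A.length + z.length ∧
    ∀ x, P.eval x = GG e Ψ' Ψ (A ++ [x]) B z

def S_swap : Prop := ∀ (q : ℂ) (l : ℕ) (e : ℕ → ℕ → Word → Word → ℂ) (Ψ Ψ' : List ℂ → VW),
  Dat q l e Ψ Ψ' → ∀ (A B z : List ℂ), A.length + B.length = l →
  GG e Ψ' Ψ A B z = GG e Ψ Ψ' B A z

/-- no through strands -/
def S_bs : Prop := ∀ (q : ℂ) (l : ℕ) (e : ℕ → ℕ → Word → Word → ℂ) (Ψ Ψ' : List ℂ → VW),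
  Dat q l e Ψ Ψ' → ∀ (A B : List ℂ), A.length + B.length = l → Gn A → Gn B →
  GG e Ψ' Ψ A B [] * (kap q A.length * kap (q ^ 2) B.length) = pfq q A * pfq (q ^ 2) B

/-- **the exact formula** (generic parameters) -/
def S_TA : Prop := ∀ (q : ℂ) (l : ℕ) (e : ℕ → ℕ → Word → Word → ℂ) (Ψ Ψ' : List ℂ → VW),
  Dat q l e Ψ Ψ' → ∀ p r N : ℕ, p + r = l →
  ∃ κ : ℂ, ‖κ‖ ^ 4 * 3 ^ (l - 1) = 1 ∧ ∀ (A B : List ℂ) (z : Fin N → ℂ), A.length = p →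
    B.length = r → Gn (A ++ B ++ List.ofFn z) →
    GG e Ψ' Ψ A B (List.ofFn z) * vd z =
      κ * pfq q A * pfq (q ^ 2) B * (wd q z * (∏ i, z i) * T q ((-q) ^ l) (A ++ B) z)

/-- the same for arbitrary legs -/
def S_TB : Prop := ∀ (q : ℂ) (l : ℕ) (e : ℕ → ℕ → Word → Word → ℂ) (Ψ Ψ' : List ℂ → VW),
  Dat q l e Ψ Ψ' → ∀ p r N : ℕ, p + r = l →
  ∃ κ : ℂ, ‖κ‖ ^ 4 * 3 ^ (l - 1) = 1 ∧ ∀ (A B : List ℂ) (z : Fin N → ℂ), A.length = p →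
    B.length = r → Gn (List.ofFn z) →
    GG e Ψ' Ψ A B (List.ofFn z) * vd z =
      κ * pfq q A * pfq (q ^ 2) B * (wd q z * (∏ i, z i) * T q ((-q) ^ l) (A ++ B) z)

/-- the homogeneous value -/
def S_HV : Prop := ∀ (q : ℂ) (p r M : ℕ) (e : ℕ → ℕ → Word → Word → ℂ) (Ψ Ψ' : List ℂ → VW),
  Dat q (p + r) e Ψ Ψ' →
  ‖GG e Ψ' Ψ (List.replicate p 1) (List.replicate r 1) (List.replicate M 1)‖
    = 3 ^ ((p + M - 1) ^ 2 / 4 + (r + M - 1) ^ 2 / 4) * RR M (p + r) 0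

/-- with one leg there is nothing to avoid -/
def S_one : Prop := ∀ e : ℕ → ℕ → Word → Word → ℂ, LSp 1 e → ∀ (p r : ℕ) (w' w : Word),
  p + r = 1 → Ok w' → Ok w → w'.length + p = w.length + r → p ≤ w.length → e p r w' w = 1

/-- the normalisation for all circumferences -/
def S_NT : Prop := ∀ (q : ℂ) (Ψ Ψ' : List ℂ → VW), q ^ 2 + q + 1 = 0 → Fam q Ψ → Fam (q ^ 2) Ψ' →
  ∀ N : ℕ, ‖tot (Ψ (List.replicate N 1))‖ = ‖tot (Ψ' (List.replicate N 1))‖ ∧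
    ‖tot (Ψ (List.replicate N 1))‖ ^ 2 * (if Even N then 1 else Real.sqrt 3)
      = 3 ^ (2 * ((N - 1) ^ 2 / 4)) * RR N 0 (Real.pi / 3)

open Classical in
/-- the leg probability of a pair of laws of words -/
noncomputable def PP (p r m n : ℕ) (μ : Wd (m + 1) → ℝ) (ν : Wd (n + 1) → ℝ) : ℝ :=
  ∑ σ, ∑ τ, (if Good p r τ.1 σ.1 then 1 else 0) * μ σ * ν τ

/-- **the exact probability** -/
def S_PB : Prop := ∀ p r M m n : ℕ, Odd (p + r) → m + 1 = p + M → n + 1 = r + M →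
  ∀ (μ : Wd (m + 1) → ℝ) (ν : Wd (n + 1) → ℝ),
  (∀ σ, 0 ≤ μ σ) → ∑ σ, μ σ = 1 → (∀ σ, 0 ≤ ν σ) → ∑ σ, ν σ = 1 →
  (∀ σ, ∑ c : Fin (m + 1) → Bool, push (Tc m c) μ σ = 2 ^ (m + 1) * μ σ) →
  (∀ σ, ∑ c : Fin (n + 1) → Bool, push (Tc n c) ν σ = 2 ^ (n + 1) * ν σ) →
  PP p r m n μ ν ^ 2 * (RR (p + M) 0 (Real.pi / 3) * RR (r + M) 0 (Real.pi / 3))
    = Real.sqrt 3 * RR M (p + r) 0 ^ 2

/-- the exponents -/
def S_FA : Prop := ∀ p r : ℕ, ∃ c C : ℝ, 0 < c ∧ 0 < C ∧ ∀ (M : ℕ) (P : ℝ), 1 ≤ M → 0 ≤ P →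
  P ^ 2 * (RR (p + M) 0 (Real.pi / 3) * RR (r + M) 0 (Real.pi / 3))
    = Real.sqrt 3 * RR M (p + r) 0 ^ 2 →
  c * (M : ℝ) ^ (-((((p : ℝ) + r) ^ 2 - 1) / 12)) ≤ P ∧
  P ≤ C * (M : ℝ) ^ (-((((p : ℝ) + r) ^ 2 - 1) / 12))

/-! ## X: the infinite cylinder -/

/-- the word of a half at the level of the slit -/
noncomputable def wdw (n M : ℕ) (ω : ℤ × ℕ → Bool) (σ : Wd (n + 1)) : Word :=
  (rows n (crow (n + 1) M ω) M σ).1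

/-- alternating rows in both halves: the leg event is the word event -/
def S_Y1 : Prop := ∀ p r M m n K K' t t' : ℕ, m + 1 = p + M → n + 1 = r + M → 1 ≤ m → 1 ≤ n →
  t < K → t' < K' → ∀ ω ω' : ℤ × ℕ → Bool, Alt (m + 1) ω t → Alt (n + 1) ω' t' →
  ∀ (σ : Wd (m + 1)) (τ : Wd (n + 1)),
  (LegEv2 p r M ω ω' ↔ Good p r (wdw n K' ω' τ) (wdw m K ω σ))

open Classical in
/-- averaging over the rows -/
def S_Y2 : Prop := ∀ p r m n K : ℕ, ∀ (μ : Wd (m + 1) → ℝ) (ν : Wd (n + 1) → ℝ),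
  (∀ σ, ∑ c : Fin (m + 1) → Bool, push (Tc m c) μ σ = 2 ^ (m + 1) * μ σ) →
  (∀ σ, ∑ c : Fin (n + 1) → Bool, push (Tc n c) ν σ = 2 ^ (n + 1) * ν σ) →
  ∑ σ, ∑ τ, μ σ * ν τ * (coinsH.prod coinsH).real
      {ω : (ℤ × ℕ → Bool) × (ℤ × ℕ → Bool) | Good p r (wdw n K ω.2 τ) (wdw m K ω.1 σ)}
    = PP p r m n μ ν

/-- the probability of the leg event -/
def S_Y3 : Prop := ∀ p r M m n : ℕ, m + 1 = p + M → n + 1 = r + M → 1 ≤ m → 1 ≤ n →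
  ∀ (μ : Wd (m + 1) → ℝ) (ν : Wd (n + 1) → ℝ),
  (∀ σ, 0 ≤ μ σ) → ∑ σ, μ σ = 1 → (∀ σ, 0 ≤ ν σ) → ∑ σ, ν σ = 1 →
  (∀ σ, ∑ c : Fin (m + 1) → Bool, push (Tc m c) μ σ = 2 ^ (m + 1) * μ σ) →
  (∀ σ, ∑ c : Fin (n + 1) → Bool, push (Tc n c) ν σ = 2 ^ (n + 1) * ν σ) →
  (coinsH.prod coinsH).real
      {ω : (ℤ × ℕ → Bool) × (ℤ × ℕ → Bool) | LegEv2 p r M ω.1 ω.2} = PP p r m n μ ν

/-- final statement: exact value and exponents -/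
def S_Y4 : Prop :=
  (∀ p r M : ℕ, Odd (p + r) → 2 ≤ p + M → 2 ≤ r + M →
    (coinsH.prod coinsH).real
        {ω : (ℤ × ℕ → Bool) × (ℤ × ℕ → Bool) | LegEv2 p r M ω.1 ω.2} ^ 2
      * (RR (p + M) 0 (Real.pi / 3) * RR (r + M) 0 (Real.pi / 3))
      = Real.sqrt 3 * RR M (p + r) 0 ^ 2) ∧
  (∀ p r : ℕ, Odd (p + r) → ∃ c C : ℝ, 0 < c ∧ 0 < C ∧ ∀ M : ℕ, 2 ≤ M →
    c * (M : ℝ) ^ (-((((p : ℝ) + r) ^ 2 - 1) / 12)) ≤ (coinsH.prod coinsH).real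
        {ω : (ℤ × ℕ → Bool) × (ℤ × ℕ → Bool) | LegEv2 p r M ω.1 ω.2} ∧
    (coinsH.prod coinsH).real
        {ω : (ℤ × ℕ → Bool) × (ℤ × ℕ → Bool) | LegEv2 p r M ω.1 ω.2}
      ≤ C * (M : ℝ) ^ (-((((p : ℝ) + r) ^ 2 - 1) / 12)))

end Pool.Agent.W801.OL
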